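import Pool.Agent.Lib.THU.AN.Defs
import Pool.Agent.Lib.THU.CV.Chain
import Pool.Agent.Lib.THU28.Cusp2
import Pool.Agent.Lib.FBC.RH.Main

/-!
Geometric half of the hyperbolization of fibred manifolds: definitions and block statements.
Paper: team store, file thurston72_GE.md.
-/

set_option autoImplicit false

namespace Pool.Agent.Lib.THU.GE

open Matrix OnePoint Filter
open scoped Classical ComplexConjugate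
open Pool.Agent.Lib.THU28 (V2 M2 om tv Nrm)
open Pool.Agent.Lib.THU.FA (P GZ D Lat)
open Pool.Agent.Lib.THU.NB (Cusp Dis crl)
open Pool.Agent.Lib.THU.AN (EI Mod CRE Thick)
open Pool.Agent.Lib.THU.CV (FP apex)

/-- the cusp `0` -/
abbrev p0 : P := ((0 : ℚ) : P)

/-- the cusp `1` -/
abbrev p1 : P := ((1 : ℚ) : P)

/-- the integer cusps -/
abbrev pz (k : ℤ) : P := ((k : ℚ) : P)

/-- the coordinate of a vector -/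
noncomputable def zc (x : V2) : ℂ := x 0 / x 1

/-- the coordinate of `p` in the frame that sends `a, b, c` to `∞, 0, 1` -/
noncomputable def co (a b c p : V2) : ℂ := om p b * om c a / (om p a * om c b)

/-- the frame at the point of upper half space over `z` at height `r ^ 2` -/
noncomputable def fr (z : ℂ) (r : ℝ) (x : V2) : V2 := ![(x 0 - z * x 1) / r, r * x 1]

/-- the segment from `p` to `q` crosses the positive imaginary axis -/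
noncomputable def kk (p q : ℂ) : ZMod 2 :=
  if (0 < p.re ∧ q.re ≤ 0 ∧ 0 < (conj p * q).im) ∨ (0 < q.re ∧ p.re ≤ 0 ∧ 0 < (conj q * p).im)
  then 1 else 0

/-- the direction of `x 1 / x 0` -/
def zt (x : V2) : ℂ := x 1 * conj (x 0)

/-- the hemisphere around `∞` -/
def hp (x : V2) : Prop := ‖x 1‖ < ‖x 0‖

/-- the small triangle `x y w` contains the point just above `∞` -/
noncomputable def ww (x y w : V2) : ZMod 2 :=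
  if hp x ∧ hp y ∧ hp w then kk (zt x) (zt y) + kk (zt y) (zt w) + kk (zt x) (zt w) else 0

/-- the parity of the number of Farey triangles above the point `(ξ, r ^ 2)` -/
noncomputable def II (Y : P → V2) (ξ : ℂ) (r : ℝ) : ZMod 2 :=
  ∑ᶠ x : FP, ww (fr ξ r (Y x.1.1)) (fr ξ r (Y x.1.2)) (fr ξ r (Y (apex x.1.1 x.1.2)))

/-- one level, seen in the frame of the cusp `∞` -/
structure Lev (Y : P → V2) (M : ℤ) (L : ℝ) (m : ℤ) : Prop where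
  inf : Y ∞ = ![1, 0]
  low : ∀ a b, a ≠ b → 1 / 9 ≤ ‖om (Y a) (Y b)‖
  up : ∀ a b, |D a b| ≤ M → ‖om (Y a) (Y b)‖ ≤ L
  one : 1 ≤ M
  ne : m ≠ 0
  per : ∃ ε : ℂ, (ε = 1 ∨ ε = -1) ∧ ∀ k : ℤ, zc (Y (pz (k + m))) = zc (Y (pz k)) + ε

section
variable {G : Type} [Group G]

/-- the degree -/
def dgr {Q : Type} [MulAction G Q] (C : Cusp G Q) (g : G) : ℤ := (C.d g).toAdd

/-- normalised cusp vectors -/
def NV {Q : Type} [MulAction G Q] (C : Cusp G Q) (V : Q → V2) : Prop :=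
  Nrm (F := C.d.ker) (fun a => ⟨C.c a, C.c_mem a⟩) V

variable [MulAction G P]

/-- the fibre group acts through a Farey lattice -/
structure Far (C : Cusp G P) where
  σ : C.d.ker →* GZ
  lat : Lat σ
  act : ∀ (x : C.d.ker) (p : P), (x : G) • p = σ x • p

/-- the conclusion of the no bump theorem -/
def NBb (C : Cusp G P) (V : ℕ → P → V2) : Prop :=
  ∀ a b c e, Dis a b c e → ∃ M : ℝ, ∀ (n : ℕ) (k : ℤ), |k| ≤ n →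
    |crl (V n) (C.t ^ k • a) (C.t ^ k • b) (C.t ^ k • c) (C.t ^ k • e)| ≤ M

/-- bounded lambda lengths at all levels -/
def UB (C : Cusp G P) (V : ℕ → P → V2) : Prop :=
  ∀ M : ℤ, ∃ L : ℝ, ∀ (n : ℕ) (g : G) (a b : P), |dgr C g| ≤ n → |D a b| ≤ M →
    ‖om (V n (g • a)) (V n (g • b))‖ ≤ L

/-- quasiconformal maps that induce the shift of the level -/
def HQ (E : EI) (C : Cusp G P) (V : ℕ → P → V2) (K : ℝ) : Prop :=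
  ∀ (n : ℕ) (g : G), ∃ h : ℂ ≃ₜ ℂ, E.QC K h ∧ ∀ p : P, p ≠ ∞ →
    h (co (V n (g • (∞ : P))) (V n (g • p0)) (V n (g • p1)) (V n (g • p))) =
      co (V n (g • C.t • (∞ : P))) (V n (g • C.t • p0)) (V n (g • C.t • p1)) (V n (g • C.t • p))

/-- big horoballs cover larger and larger balls around a middle level -/
def Cov (C : Cusp G P) (V : ℕ → P → V2) : Prop :=
  ∃ (R : ℝ) (g : ℕ → G) (B : ℕ → M2), (∀ n, (B n).det = 1) ∧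
    (∀ n, (B n *ᵥ V n (g n • (∞ : P))) 1 = 0) ∧ (∀ n, (B n *ᵥ V n (g n • p0)) 0 = 0) ∧
    (∀ n, (B n *ᵥ V n (g n • p1)) 0 = (B n *ᵥ V n (g n • p1)) 1) ∧
    (∀ n : ℕ, |dgr C (g n)| ≤ n) ∧
    ∀ (ξ : ℂ) (r : ℝ), 0 < r → ∀ᶠ n : ℕ in atTop, ∃ a, ‖fr ξ r (B n *ᵥ V n a)‖ ≤ R

end

/-! ### Blocks -/

def St_FAR : Prop := ∀ (G : Type) [Group G] (d : FBC.Dg G), FBC.FC d → ¬ FBC.Per d →
  FBC.Surf d → ∃ (_ : MulAction G P) (C : Cusp G P), Nonempty (Far C)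

def St_MOD : Prop := ∀ (G : Type) [Group G] [MulAction G P] (C : Cusp G P), Far C →
  Nonempty (Mod C)

/-- uses AN, VEC, NB -/
def St_ANX : Prop := ∀ (E : EI) (G : Type) [Group G] [MulAction G P] (C : Cusp G P),
  Nonempty (Mod C) → ∃ (V : ℕ → P → V2) (K : ℝ), (∀ n, NV C (V n)) ∧ NBb C V ∧ HQ E C V K

def St_FIX2 : Prop := ∀ (G : Type) [Group G] (Q : Type) [MulAction G Q] (C : Cusp G Q)
  (V : Q → V2), NV C V → ∀ (g : G) (a b : Q), a ≠ b → g • a = a → g • b = b → g = 1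

def St_PACK : Prop := ∀ c R : ℝ, 0 < c → ∃ N : ℕ, ∀ (Q : Type) (u : Q → V2) (S : Finset Q),
  (∀ a ∈ S, ∀ b ∈ S, a ≠ b → c ≤ ‖om (u a) (u b)‖) → (∀ a ∈ S, ‖u a‖ ≤ R) → S.card ≤ N

def St_WCR : Prop := ∀ (G : Type) [Group G] (Q : Type) [MulAction G Q] (C : Cusp G Q)
  (V : Q → V2), NV C V → (∀ a b, a ≠ b → 1 / 9 ≤ ‖om (V a) (V b)‖) ∧
  (∀ f ∈ C.d.ker, ∀ (g : G) a b,
    ‖om (V (g • f • a)) (V (g • f • b))‖ = ‖om (V (g • a)) (V (g • b))‖) ∧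
  (∀ (g : G) (b : Q), ∃ ε : ℤ, (ε = 1 ∨ ε = -1) ∧ ∀ (j : ℤ) (a : Q), ∃ s : ℂ, ‖s‖ = 1 ∧
    tv (V (g • b)) (ε * j) *ᵥ V (g • a) = s • V (g • C.c b ^ j • a)) ∧
  ∀ (g : G) (a b : Q) (j : ℤ),
    ‖om (V (g • a)) (V (g • C.c b ^ j • a))‖ = |(j : ℝ)| * ‖om (V (g • a)) (V (g • b))‖ ^ 2 ∧
    ‖om (V (g • b)) (V (g • C.c b ^ j • a))‖ = ‖om (V (g • a)) (V (g • b))‖

/-- uses FIX2, PACK, WCR -/
def St_LEV : Prop := ∀ (G : Type) [Group G] [MulAction G P] (C : Cusp G P), Far C → ∀ R : ℝ,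
  ∃ N : ℕ, ∀ (V : P → V2) (A : M2) (H : G) (S : Finset ℤ), NV C V → A.det = 1 → dgr C H ≠ 0 →
    (∀ j ∈ S, ∃ f ∈ C.d.ker, ∃ a b, |D a b| = 1 ∧ ‖A *ᵥ V (f • H ^ j • a)‖ ≤ R ∧
      ‖A *ᵥ V (f • H ^ j • b)‖ ≤ R) → S.card ≤ N

/-- uses WCR -/
def St_UB : Prop := ∀ (G : Type) [Group G] [MulAction G P] (C : Cusp G P), Far C →
  ∀ V : ℕ → P → V2, (∀ n, NV C (V n)) → NBb C V → UB C V

def St_OM : Prop :=
  (∀ x y w, ww x y w = ww y x w ∧ ww x y w = ww x w y ∧ ww x x y = 0) ∧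
  (∀ (L R : ℝ) (x y w v : V2), 0 < R → 8 * L ≤ R ^ 2 → R ≤ ‖x‖ → R ≤ ‖y‖ → R ≤ ‖w‖ → R ≤ ‖v‖ →
    ‖om x y‖ ≤ L → ‖om x w‖ ≤ L → ‖om x v‖ ≤ L → ‖om y w‖ ≤ L → ‖om y v‖ ≤ L → ‖om w v‖ ≤ L →
    ww x y w + ww x y v + ww x w v + ww y w v = 0) ∧
  ∀ x y w, ww x y w ≠ 0 → hp x ∧ hp y ∧ hp w ∧
    ((zt x * conj (zt y)).re ≤ 0 ∨ (zt y * conj (zt w)).re ≤ 0 ∨ (zt x * conj (zt w)).re ≤ 0)

/-- an obtuse pair is near -/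
def St_NEAR : Prop := ∀ (Y : P → V2) (M : ℤ) (L : ℝ) (m : ℤ), Lev Y M L m → ∀ (ξ : ℂ) (r : ℝ),
  0 < r → ∀ a b, a ≠ ∞ → b ≠ ∞ → |D a b| ≤ M → hp (fr ξ r (Y a)) → hp (fr ξ r (Y b)) →
  (zt (fr ξ r (Y a)) * conj (zt (fr ξ r (Y b)))).re ≤ 0 →
  ‖fr ξ r (Y a)‖ ≤ 9 * L / r ∧ ‖fr ξ r (Y b)‖ ≤ 9 * L / r

/-- uses PACK, OM, NEAR -/
def St_FIN : Prop := ∀ (Y : P → V2) (M : ℤ) (L : ℝ) (m : ℤ), Lev Y M L m →
  (∀ k : ℤ, |(zc (Y (pz k))).im - (zc (Y p0)).im| ≤ 81 * L * |(m : ℝ)|) ∧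
  ∀ (ξ : ℂ) (r : ℝ), 0 < r → {x : P × P × P | |D x.1 x.2.1| ≤ M ∧ |D x.1 x.2.2| ≤ M ∧
    |D x.2.1 x.2.2| ≤ M ∧ ww (fr ξ r (Y x.1)) (fr ξ r (Y x.2.1)) (fr ξ r (Y x.2.2)) ≠ 0}.Finite

/-- uses OM, NEAR -/
def St_LINK : Prop := ∀ (Y : P → V2) (M : ℤ) (L : ℝ) (m : ℤ), Lev Y M L m → ∀ (ξ : ℂ) (r : ℝ),
  0 < r → (∀ a b, |D a b| = 1 → 9 * L / r < ‖fr ξ r (Y a)‖ ∨ 9 * L / r < ‖fr ξ r (Y b)‖) →
  ((∀ k : ℤ, r ^ 2 < (zc (Y (pz k)) - ξ).im) → II Y ξ r = 0) ∧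
  ((∀ k : ℤ, (zc (Y (pz k)) - ξ).im < -r ^ 2) → II Y ξ r = 1)

/-- uses WCR, LEV, OM, FIN, LINK and the chain lemma -/
def St_COV0 : Prop := ∀ (G : Type) [Group G] [MulAction G P] (C : Cusp G P), Far C →
  ∀ H : G, H • (∞ : P) = ∞ → dgr C H ≠ 0 → ∃ M : ℤ, 1 ≤ M ∧ ∀ L ρ : ℝ, 1 ≤ L → 1 ≤ ρ → ∃ N : ℕ,
  ∀ (V : P → V2) (A : M2) (J : ℕ) (β : ℂ), NV C V → A.det = 1 → A *ᵥ V ∞ = ![1, 0] →
    (∀ j : ℤ, |j| ≤ J → ∀ a b, |D a b| ≤ M → ‖om (V (H ^ j • a)) (V (H ^ j • b))‖ ≤ L) →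
    N < ((Finset.Icc (-J : ℤ) J).filter fun j => β.im ≤ (zc (A *ᵥ V (H ^ j • p0))).im).card →
    N < ((Finset.Icc (-J : ℤ) J).filter fun j => (zc (A *ᵥ V (H ^ j • p0))).im ≤ β.im).card →
    ∀ (ξ : ℂ) (r : ℝ), ‖ξ‖ ≤ ρ → 1 / ρ ≤ r → r ≤ ρ → ∃ a, ‖fr (β + ξ) r (A *ᵥ V a)‖ ≤ 3 * L

/-- uses WCR, COV0 -/
def St_COV : Prop := ∀ (G : Type) [Group G] [MulAction G P] (C : Cusp G P), Far C →
  ∀ V : ℕ → P → V2, (∀ n, NV C (V n)) → UB C V → Cov C V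

/-- uses PACK -/
def St_THK : Prop := ∀ (U : Ultrafilter ℕ) (Q : Type) (W : ℕ → Q → V2) (i : ℕ → Q)
  (c : Q → Q → Q) (hn : ℕ → ℂ → ℂ) (h : ℂ → ℂ) (R Λ : ℝ), (U : Filter ℕ) ≤ atTop →
  Continuous h → TendstoLocallyUniformly hn h U →
  (∀ n a b, a ≠ b → 1 / 9 ≤ ‖om (W n a) (W n b)‖) → (∀ n, W n (i n) 1 = 0) →
  (∀ n, 1 ≤ Λ * ‖W n (i n) 0‖ ∧ ‖W n (i n) 0‖ ≤ Λ) →
  (∀ (ξ : ℂ) (r : ℝ), 0 < r → ∀ᶠ n in (U : Filter ℕ), ∃ a, ‖fr ξ r (W n a)‖ ≤ R) →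
  (∀ n a q, ∃ s : ℂ, tv (W n a) 1 *ᵥ W n q = s • W n (c a q)) →
  (∀ n a (q : Fin 4 → Q), (∀ k, q k ≠ i n ∧ c a (q k) ≠ i n) →
    CRE (fun k => hn n (zc (W n (q k)))) fun k => hn n (zc (W n (c a (q k))))) →
  ∃ (B : ℝ) (Bad : Set ℂ), Bad.Countable ∧ ∀ ξ ∉ Bad, Thick h B ξ

/-- uses WCR, THK, RIG -/
def St_LIMIT : Prop := ∀ (E : EI) (G : Type) [Group G] [MulAction G P] (C : Cusp G P)
  (V : ℕ → P → V2) (K : ℝ), (∀ n, NV C (V n)) → UB C V → HQ E C V K → Cov C V →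
  ∃ u : P → V2, (∀ a b, a ≠ b → 1 / 9 ≤ ‖om (u a) (u b)‖) ∧
    ∀ (g : G) a b, ‖om (u (g • a)) (u (g • b))‖ = ‖om (u a) (u b)‖

def St_GRAM : Prop := ∀ (G : Type) [Group G] (Q : Type) [MulAction G Q] (u : Q → V2) (c : ℝ),
  0 < c → (∃ a b : Q, a ≠ b) → (∀ (g : G) (n : ℕ), 0 < n → g ^ n = 1 → g = 1) →
  (∀ (g : G) (a b : Q), a ≠ b → g • a = a → g • b = b → g = 1) →
  (∀ a b, a ≠ b → c ≤ ‖om (u a) (u b)‖) →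
  (∀ (g : G) a b, ‖om (u (g • a)) (u (g • b))‖ = ‖om (u a) (u b)‖) → FBC.RH.Hyp3 G

/-- assembly -/
theorem thu_of (hE : AN.St_EI) (hF : St_FAR) (hM : St_MOD) (hA : St_ANX) (hX : St_FIX2)
    (hU : St_UB) (hC : St_COV) (hL : St_LIMIT) (hG : St_GRAM) : FBC.RH.St_THU := by
  intro G _ d h1 h2 h3
  obtain ⟨E⟩ := hE
  obtain ⟨_, C, ⟨φ⟩⟩ := hF G d h1 h2 h3
  obtain ⟨V, K, a1, a2, a3⟩ := hA E G C (hM G C φ)
  have ub := hU G C φ V a1 a2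
  obtain ⟨u, u1, u2⟩ := hL E G C V K a1 ub a3 (hC G C φ V a1 ub)
  exact hG G P u (1 / 9) (by norm_num) C.two (fun g n hn e => h1.torsionFree hn e)
    (hX G P C (V 0) (a1 0)) u1 u2

end Pool.Agent.Lib.THU.GE
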