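import Pool.Agent.Lib.THU.GE.Defs
import Pool.Agent.Lib.THU.FA.Mod

/-!
The Farey model of the fibred group.
-/

namespace Pool.Agent.Lib.THU.GE

open Pool.Agent.Lib.THU

theorem stFAR : St_FAR := fun G _ d h1 h2 h3 =>
  let ⟨i, C, _, ⟨M⟩, _⟩ := FA.model G d h1.surj h2 h3
  ⟨i, C, ⟨⟨M.σ, M.lat, M.act⟩⟩⟩

namespace FAR

theorem stMOD : St_MOD := fun _ _ _ C φ => FA.mod_of C φ.σ φ.lat φ.act

end FAR

end Pool.Agent.Lib.THU.GE
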