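import Pool.Agent.Lib.THU.GE.Defs
import Pool.Agent.Lib.THU.NB.All

/-!
Block ANX: normalised cusp vectors from the export of the analytic half.
-/

set_option autoImplicit false

namespace Pool.Agent.Lib.THU.GE.ANX

open Matrix OnePoint Filter
open scoped Classical ComplexConjugate
open Pool.Agent.Lib.THU28 (V2 M2 om om_smul_left om_smul_right)
open Pool.Agent.Lib.THU.FA (P)
open Pool.Agent.Lib.THU.AN (pt GC)

lemma co_smul {r s t u : ℂ} (hr : r ≠ 0) (hs : s ≠ 0) (ht : t ≠ 0) (hu : u ≠ 0) (a b c p : V2) :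
    co (r • a) (s • b) (t • c) (u • p) = co a b c p := by
  simp only [co, om_smul_left, om_smul_right]
  rw [← mul_div_mul_left (om p b * om c a) _ (mul_ne_zero (mul_ne_zero hr hs) (mul_ne_zero ht hu))]
  congr 1 <;> ring

lemma log_smul {r s : ℂ} (hr : r ≠ 0) (hs : s ≠ 0) {x y : V2} (h : NB.om x y ≠ 0) :
    Real.log ‖NB.om (r • x) (s • y)‖ = Real.log ‖r‖ + Real.log ‖s‖ + Real.log ‖NB.om x y‖ := by
  have e : NB.om (r • x) (s • y) = r * s * NB.om x y := by simp [NB.om]; ring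
  rw [e, norm_mul, norm_mul, Real.log_mul (by positivity) (by positivity),
    Real.log_mul (by positivity) (by positivity)]

/-- the frame that sends `a, b, c` to `∞, 0, 1` -/
lemma frame (hV : AN.St_VEC) {a b c : V2} (ha : a ≠ 0) (ab : om a b ≠ 0) (ca : om c a ≠ 0)
    (cb : om c b ≠ 0) : ∃ N : GC, N • pt a = ∞ ∧
      ∀ p : V2, p ≠ 0 → om p a ≠ 0 → N • pt p = ((co a b c p : ℂ) : AN.S) := by
  let A : M2 := !![b 1 * om c a, -b 0 * om c a; a 1 * om c b, -a 0 * om c b]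
  have dA : A.det ≠ 0 := by
    have : A.det = -(om c a * om c b * om a b) := by
      rw [det_fin_two]; simp [A, om]; ring
    rw [this]
    exact neg_ne_zero.2 (mul_ne_zero (mul_ne_zero ca cb) ab)
  have e0 : ∀ p : V2, (A *ᵥ p) 0 = om p b * om c a := fun p => by
    simp [A, mulVec, dotProduct, Fin.sum_univ_two, om]; ring
  have e1 : ∀ p : V2, (A *ᵥ p) 1 = om p a * om c b := fun p => by
    simp [A, mulVec, dotProduct, Fin.sum_univ_two, om]; ring
  have k : ∀ p : V2, p ≠ 0 → (GeneralLinearGroup.mkOfDetNeZero A dA : GC) • pt p = pt (A *ᵥ p) :=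
    fun p hp => (hV.2.2.2.1 (GeneralLinearGroup.mkOfDetNeZero A dA) p hp).symm
  refine ⟨GeneralLinearGroup.mkOfDetNeZero A dA, ?_, fun p hp hpa => ?_⟩
  · rw [k a ha, pt, if_pos]
    rw [e1, THU28.om_self, zero_mul]
  · rw [k p hp, pt, if_neg, e0, e1, co]
    rw [e1]
    exact mul_ne_zero hpa cb

end Pool.Agent.Lib.THU.GE.ANX

namespace Pool.Agent.Lib.THU.GE

open Matrix OnePoint Filter ANX
open Pool.Agent.Lib.THU28 (V2 M2 om)
open Pool.Agent.Lib.THU.FA (P)

theorem stANX (hAN : AN.St_AN) (hV : AN.St_VEC) : St_ANX := by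
  intro E G _ _ C hM
  obtain ⟨v, K, L, B, hR, v0, hc, ht, hq⟩ := hAN E G C hM
  have nb := NB.stNB G P C v L B hR hc ht
  choose r r0 hN _ using fun n => NB.exists_nrm C (v n) (hR n)
  have inj : ∀ n (g : G) a b, a ≠ b → NB.om (v n (g • a)) (v n (g • b)) ≠ 0 := fun n g a b h =>
    (hR n).inj _ _ ((MulAction.injective g).ne h)
  refine ⟨fun n a => r n a • v n a, K, hN, fun a b c e hd => ?_, fun n g => ?_⟩
  · obtain ⟨M, hM⟩ := nb a b c e hd
    refine ⟨M, fun n k hk => ?_⟩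
    obtain ⟨ab, ac, _, _, be, ce⟩ := hd
    convert hM n k hk using 2
    simp only [NB.crl, log_smul (r0 n _) (r0 n _) (inj n _ _ _ ab),
      log_smul (r0 n _) (r0 n _) (inj n _ _ _ ac), log_smul (r0 n _) (r0 n _) (inj n _ _ _ be),
      log_smul (r0 n _) (r0 n _) (inj n _ _ _ ce)]
    ring
  · have i0 : (∞ : P) ≠ p0 := (coe_ne_infty _).symm
    have i1 : p1 ≠ (∞ : P) := coe_ne_infty _
    have i2 : p1 ≠ p0 := fun h => one_ne_zero (coe_eq_coe.1 h)
    obtain ⟨N, N1, N2⟩ := frame hV (v0 n (g • (∞ : P))) (inj n g _ _ i0) (inj n g _ _ i1)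
      (inj n g _ _ i2)
    obtain ⟨M, M1, M2⟩ := frame hV (v0 n ((g * C.t) • (∞ : P))) (inj n _ _ _ i0) (inj n _ _ _ i1)
      (inj n _ _ _ i2)
    simp only [mul_smul] at M1 M2
    obtain ⟨h, h1, h2⟩ := hq n g N M ∞ N1 M1
    refine ⟨h, h1, fun p hp => ?_⟩
    have k := h2 p
    have j := inj n (g * C.t) _ _ hp
    simp only [mul_smul] at j
    rw [N2 _ (v0 n _) (inj n g _ _ hp), M2 _ (v0 n _) j] at k
    rw [co_smul (r0 n _) (r0 n _) (r0 n _) (r0 n _), co_smul (r0 n _) (r0 n _) (r0 n _) (r0 n _)]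
    exact (coe_eq_coe.1 k).symm

end Pool.Agent.Lib.THU.GE
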