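import Pool.Agent.Lib.THU.GE.Defs
import Pool.Agent.Lib.THU.NB.FIX

/-! Big horoballs cover larger and larger balls around a middle level. -/

set_option autoImplicit false

namespace Pool.Agent.Lib.THU.GE

open Matrix OnePoint Filter
open scoped Classical
open Pool.Agent.Lib.THU28 (V2 M2 om om_mulVec)
open Pool.Agent.Lib.THU.FA (P D)

namespace COV

lemma median (S : Finset ℤ) (τ : ℤ → ℝ) {J : ℕ} (h : 2 * J < S.card) : ∃ j ∈ S,
    J < (S.filter fun i => τ j ≤ τ i).card ∧ J < (S.filter fun i => τ i ≤ τ j).card := by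
  obtain ⟨a, ha, h1⟩ := S.exists_min_image τ (Finset.card_pos.1 (by omega))
  obtain ⟨j, hj, h2⟩ := (S.filter fun j => J < (S.filter fun i => τ j ≤ τ i).card).exists_max_image
    τ ⟨a, Finset.mem_filter.2 ⟨ha, by rw [Finset.filter_true_of_mem h1]; omega⟩⟩
  obtain ⟨h3, h4⟩ := Finset.mem_filter.1 hj
  refine ⟨j, h3, h4, by_contra fun h5 => ?_⟩
  have h6 := Finset.card_filter_add_card_filter_not (s := S) fun i => τ i ≤ τ j
  obtain ⟨b, hb, h7⟩ := (S.filter fun i => ¬ τ i ≤ τ j).exists_min_image τ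
    (Finset.card_pos.1 (by omega))
  obtain ⟨h8, h9⟩ := Finset.mem_filter.1 hb
  refine h9 (h2 b (Finset.mem_filter.2 ⟨h8, lt_of_lt_of_le (by omega) (Finset.card_le_card
    fun i hi => Finset.mem_filter.2 ⟨(Finset.mem_filter.1 hi).1, h7 i hi⟩)⟩))

lemma ex_A {x : V2} (h : x ≠ 0) : ∃ A : M2, A.det = 1 ∧ A *ᵥ x = ![1, 0] := by
  obtain ⟨p, q, e⟩ : ∃ p q : ℂ, p * x 0 + q * x 1 = 1 := by
    by_cases h0 : x 0 = 0
    · have h1 : x 1 ≠ 0 := fun h1 => h (by ext i; fin_cases i <;> assumption)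
      exact ⟨0, (x 1)⁻¹, by simp [h1]⟩
    · exact ⟨(x 0)⁻¹, 0, by simp [h0]⟩
  refine ⟨!![p, q; -x 1, x 0], by rw [det_fin_two_of, ← e]; ring, ?_⟩
  ext i
  fin_cases i <;> simp [mulVec, dotProduct, e]
  ring

lemma act (l β : ℂ) (z : V2) :
    !![l⁻¹, -β / l; 0, l] *ᵥ z = ![(z 0 - β * z 1) / l, l * z 1] := by
  ext i
  fin_cases i <;> simp [mulVec, dotProduct]
  ring

lemma norm_fr {l : ℂ} (hl : l ≠ 0) (β ξ : ℂ) (r : ℝ) (z : V2) :
    ‖fr ξ r (!![l⁻¹, -β / l; 0, l] *ᵥ z)‖ ≤ ‖fr (β + ξ * l ^ 2) (r * ‖l‖) z‖ := by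
  refine (pi_norm_le_iff_of_nonneg (norm_nonneg _)).2 fun i => le_trans (le_of_eq ?_)
    (norm_le_pi_norm _ i)
  rw [act]
  fin_cases i
  · have : (z 0 - β * z 1) / l - ξ * (l * z 1) = (z 0 - (β + ξ * l ^ 2) * z 1) / l := by
      field_simp; ring
    simp [fr, this, div_div, mul_comm]
  · simp [fr, mul_assoc]

/-- the scale of the frame -/
lemma scale {x y : V2} {L : ℝ} (hL : 1 ≤ L) (h1 : 1 / 9 ≤ ‖x 1‖) (h2 : ‖x 1‖ ≤ L)
    (h3 : 1 / 9 ≤ ‖y 1‖) (h4 : ‖y 1‖ ≤ L) (h5 : 1 / 9 ≤ ‖om x y‖) (h6 : ‖om x y‖ ≤ L) :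
    ∃ l : ℂ, l ≠ 0 ∧ x 0 - zc x * x 1 = 0 ∧ (y 0 - zc x * y 1) / l = l * y 1 ∧
      1 ≤ 3 * L * ‖l‖ ∧ ‖l‖ ≤ 9 * L := by
  have x0 : x 1 ≠ 0 := norm_pos_iff.1 (by linarith)
  have y0 : y 1 ≠ 0 := norm_pos_iff.1 (by linarith)
  obtain ⟨l, hl⟩ := IsAlgClosed.exists_pow_nat_eq (zc y - zc x) two_pos
  have e : l ^ 2 * (x 1 * y 1) = -om x y := by rw [hl, zc, zc, om]; field_simp; ring
  have e' : ‖l‖ ^ 2 * (‖x 1‖ * ‖y 1‖) = ‖om x y‖ := by simpa using congrArg norm e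
  have p1 : 1 / 9 * (1 / 9) ≤ ‖x 1‖ * ‖y 1‖ := by gcongr
  have p2 : ‖x 1‖ * ‖y 1‖ ≤ L * L := by gcongr
  have l0 : l ≠ 0 := by rintro rfl; simp at e'; linarith
  refine ⟨l, l0, by rw [zc]; field_simp; ring, ?_, ?_, ?_⟩
  · rw [div_eq_iff l0, mul_right_comm, ← sq, hl, zc, zc]; field_simp
  · refine le_of_sq_le_sq ?_ (by positivity)
    nlinarith [mul_le_mul_of_nonneg_left p2 (sq_nonneg ‖l‖)]
  · refine le_of_sq_le_sq ?_ (by positivity)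
    nlinarith [mul_le_mul_of_nonneg_left p1 (sq_nonneg ‖l‖)]

end COV

open COV in
theorem stCOV (hW : St_WCR) (h0 : St_COV0) : St_COV := by
  intro G _ _ C φ V hV hU
  obtain ⟨H, hH, hi⟩ := C.ex_fix ∞
  have hd : dgr C H ≠ 0 := fun e => hH e
  obtain ⟨M, hM, hC⟩ := h0 G C φ H hi hd
  obtain ⟨L₀, hL₀⟩ := hU M
  set L := max 1 L₀
  have hL : 1 ≤ L := le_max_left _ _
  have low := fun n => (hW G P C (V n) (hV n)).1
  choose A hA hA' using fun n => ex_A ((hV n).ne ∞)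
  set J : ℕ → ℕ := fun n => n / (dgr C H).natAbs
  have dj : ∀ (n : ℕ) (j : ℤ), |j| ≤ J n → |dgr C (H ^ j)| ≤ n := fun n j hj => by
    have h1 : dgr C (H ^ j) = j * dgr C H := by simp [dgr]
    have h2 : (J n : ℤ) * (dgr C H).natAbs ≤ n := by exact_mod_cast Nat.div_mul_le_self _ _
    rw [h1, abs_mul, ← Int.natCast_natAbs (dgr C H)]
    exact (mul_le_mul_of_nonneg_right hj (by positivity)).trans h2
  have up : ∀ (n : ℕ) (j : ℤ), |j| ≤ J n → ∀ a b, |D a b| ≤ M →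
      ‖om (V n (H ^ j • a)) (V n (H ^ j • b))‖ ≤ L := fun n j hj a b hab =>
    (hL₀ n _ a b (dj n j hj) hab).trans (le_max_right _ _)
  choose j hj m1 m2 using fun n => median (Finset.Icc (-J n : ℤ) (J n))
    (fun j => (zc (A n *ᵥ V n (H ^ j • p0))).im) (J := J n) (by simp; omega)
  replace hj : ∀ n, |j n| ≤ J n := fun n => abs_le.2 (Finset.mem_Icc.1 (hj n))
  have hA'' : ∀ n, A n *ᵥ V n (H ^ j n • ∞) = ![1, 0] := fun n => by
    rw [MulAction.mem_stabilizer_iff.1 (zpow_mem (MulAction.mem_stabilizer_iff.2 hi) _), hA']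
  have bd : ∀ n a b, a ≠ b → |D a b| ≤ M →
      1 / 9 ≤ ‖om (A n *ᵥ V n (H ^ j n • a)) (A n *ᵥ V n (H ^ j n • b))‖ ∧
      ‖om (A n *ᵥ V n (H ^ j n • a)) (A n *ᵥ V n (H ^ j n • b))‖ ≤ L := fun n a b h1 h2 => by
    rw [om_mulVec, hA, one_mul]
    exact ⟨low n _ _ ((MulAction.injective _).ne h1), up n _ (hj n) a b h2⟩
  have bd' : ∀ n (q : ℚ), q.den = 1 → 1 / 9 ≤ ‖(A n *ᵥ V n (H ^ j n • (q : P))) 1‖ ∧
      ‖(A n *ᵥ V n (H ^ j n • (q : P))) 1‖ ≤ L := fun n q hq => by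
    simpa [hA'', om] using bd n ∞ q (infty_ne_coe q) (by simpa [D, hq] using hM)
  choose l l0 l1 l2 l3 l4 using fun n => scale hL (bd' n 0 rfl).1 (bd' n 0 rfl).2 (bd' n 1 rfl).1
    (bd' n 1 rfl).2 (bd n p0 p1 (by simp) (by simpa [D] using hM)).1
    (bd n p0 p1 (by simp) (by simpa [D] using hM)).2
  refine ⟨3 * L, fun n => H ^ j n,
    fun n => !![(l n)⁻¹, -zc (A n *ᵥ V n (H ^ j n • p0)) / l n; 0, l n] * A n,
    fun n => by rw [det_mul, hA, det_fin_two_of]; simp [l0], fun n => ?_, fun n => ?_, fun n => ?_, fun n => dj n _ (hj n),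
    fun ξ r hr => ?_⟩
  · rw [← mulVec_mulVec, act, hA'']; simp
  · rw [← mulVec_mulVec, act, l1]; simp
  · rw [← mulVec_mulVec, act, l2]; rfl
  have p1 : 0 ≤ ‖ξ‖ * (9 * L) ^ 2 := by positivity
  have p2 : 0 < 3 * L / r := by positivity
  have p3 : 0 ≤ r * (9 * L) := by positivity
  obtain ⟨N, hN⟩ := hC L (1 + ‖ξ‖ * (9 * L) ^ 2 + 3 * L / r + r * (9 * L)) hL (by linarith)
  filter_upwards [eventually_ge_atTop (N * (dgr C H).natAbs)] with n hn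
  have hJ : N ≤ J n := (Nat.le_div_iff_mul_le (Int.natAbs_pos.2 hd)).2 hn
  obtain ⟨a, ha⟩ := hN (V n) (A n) (J n) _ (hV n) (hA n) (hA' n) (up n) (hJ.trans_lt (m1 n))
    (hJ.trans_lt (m2 n)) (ξ * l n ^ 2) (r * ‖l n‖) (by
      have : ‖ξ‖ * ‖l n‖ ^ 2 ≤ ‖ξ‖ * (9 * L) ^ 2 := by gcongr; exact l4 n
      rw [norm_mul, norm_pow]; linarith) (by
      refine (one_div_le_one_div_of_le p2 (by linarith)).trans ?_
      rw [one_div_div, div_le_iff₀ (by positivity)]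
      nlinarith [mul_le_mul_of_nonneg_left (l3 n) hr.le]) (by
      have := mul_le_mul_of_nonneg_left (l4 n) hr.le
      linarith)
  exact ⟨a, by rw [← mulVec_mulVec]; exact (norm_fr (l0 n) _ _ _ _).trans ha⟩

end Pool.Agent.Lib.THU.GE
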