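import Pool.Agent.Lib.THU.GE.Defs
import Pool.Agent.Lib.THU.FA.Cusp
import Pool.Agent.Lib.THU.NB.GENB

/-!
The covering theorem in the frame of a cusp.
-/

set_option autoImplicit false

namespace Pool.Agent.Lib.THU.GE

open Matrix OnePoint
open Pool.Agent.Lib.THU28 (V2 M2 om tv om_mulVec tv_mulVec)
open Pool.Agent.Lib.THU.FA (P GZ D Lat Eqv Tn PM Tn_coe Tn_zero)
open Pool.Agent.Lib.THU.NB (Cusp)
open Pool.Agent.Lib.THU.CV (FP apex Coc chain)

namespace COV0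

/-- the matrix of the frame -/
noncomputable def frM (z : ℂ) (r : ℝ) : M2 := !![1 / r, -z / r; 0, r]

lemma frM_mul (z : ℂ) (r : ℝ) (x : V2) : frM z r *ᵥ x = fr z r x := by
  ext i; fin_cases i <;> simp [frM, fr, mulVec, dotProduct]; ring

lemma frM_det (z : ℂ) {r : ℝ} (hr : r ≠ 0) : (frM z r).det = 1 := by
  have : (r : ℂ) ≠ 0 := by exact_mod_cast hr
  simp [frM, det_fin_two, this]

lemma om_fr (z : ℂ) {r : ℝ} (hr : r ≠ 0) (x y : V2) : om (fr z r x) (fr z r y) = om x y := by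
  rw [← frM_mul, ← frM_mul, om_mulVec, frM_det z hr, one_mul]

lemma norm_fr_le (z : ℂ) {r : ℝ} (hr : 0 < r) (x : V2) {R : ℝ} (h0 : ‖x 0 - z * x 1‖ ≤ R * r)
    (h1 : r * ‖x 1‖ ≤ R) : ‖fr z r x‖ ≤ R := by
  have hR : 0 ≤ R := le_trans (by positivity) h1
  refine (pi_norm_le_iff_of_nonneg hR).2 fun i => ?_
  fin_cases i
  · simpa [fr, abs_of_pos hr, div_le_iff₀ hr] using h0
  · simpa [fr, abs_of_pos hr] using h1

lemma coc (hO : St_OM) (hF : St_FIN) {Y : P → V2} {M : ℤ} {L : ℝ} {m : ℤ} (h : Lev Y M L m)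
    (hL : 1 ≤ L) (ξ : ℂ) {r : ℝ} (hr : 0 < r) (hu : ∀ a, 3 * L ≤ ‖fr ξ r (Y a)‖) :
    Coc M fun a b c => ww (fr ξ r (Y a)) (fr ξ r (Y b)) (fr ξ r (Y c)) where
  s1 _ _ _ := (hO.1 _ _ _).1
  s2 _ _ _ := (hO.1 _ _ _).2.1
  dg a b := (hO.1 _ _ (fr ξ r (Y b))).2.2
  coc a b c e h1 h2 h3 h4 h5 h6 := by
    refine hO.2.1 L (3 * L) _ _ _ _ (by positivity) (by nlinarith) (hu a) (hu b) (hu c) (hu e)
      ?_ ?_ ?_ ?_ ?_ ?_ <;> rw [om_fr _ hr.ne'] <;> apply h.up <;> assumption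
  fin := (hF Y M L m h).2 ξ r hr

variable {G : Type} [Group G] [MulAction G P] {C : Cusp G P}

lemma bd (φ : Far C) (g : G) : ∃ K, ∀ p q, |D p q| = 1 → |D (g • p) (g • q)| ≤ K :=
  φ.lat.bd (φ := fun x => ⟨g * x * g⁻¹, C.conj_mem g x.2⟩) (ψ := fun p => g • p) fun x p => by
    rw [← φ.act, ← φ.act]
    simp [mul_smul]

lemma trans (φ : Far C) : ∃ m : ℤ, m ≠ 0 ∧ ∀ k : ℤ, C.c ∞ • pz k = pz (k + m) := by
  obtain ⟨m, hm⟩ := φ.lat.par (x := ⟨C.c ∞, C.c_mem ∞⟩) (B := 1) (by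
    rw [one_smul, ← φ.act]; exact C.c_fix ∞)
  refine ⟨m, ?_, fun k => ?_⟩
  · rintro rfl
    refine C.c_ne ∞ (congrArg Subtype.val (φ.lat.inj ⟨C.c ∞, C.c_mem ∞⟩ ?_))
    simpa [Tn_zero, PM] using hm
  · have := hm.smul (pz k)
    rw [← φ.act, one_mul, inv_one, mul_one, Tn_coe] at this
    simpa [pz] using this

lemma shift {A : M2} (hA : A.det = 1) {u x y : V2} (hu : A *ᵥ u = ![1, 0]) {k s : ℂ}
    (e : tv u k *ᵥ x = s • y) :
    s * (A *ᵥ y) 0 = (A *ᵥ x) 0 + k * (A *ᵥ x) 1 ∧ s * (A *ᵥ y) 1 = (A *ᵥ x) 1 := by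
  have e1 := congrArg (A *ᵥ ·) e
  have e2 := om_mulVec A u x
  rw [hA, one_mul, hu] at e2
  simp only [tv_mulVec, mulVec_add, mulVec_smul, hu, ← e2] at e1
  generalize A *ᵥ x = x' at e1 ⊢
  generalize A *ᵥ y = y' at e1 ⊢
  have a := congrFun e1 0
  have b := congrFun e1 1
  simp [om] at a b
  exact ⟨a.symm, b.symm⟩

lemma lev (hW : St_WCR) {m : ℤ} (m0 : m ≠ 0) (hm : ∀ k : ℤ, C.c ∞ • pz k = pz (k + m))
    {V : P → V2} (hV : NV C V) {A : M2} (hA : A.det = 1) (hi : A *ᵥ V ∞ = ![1, 0]) {g : G}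
    (hg : g • (∞ : P) = ∞) {M : ℤ} (hM : 1 ≤ M) {L : ℝ}
    (hL : ∀ a b, |D a b| ≤ M → ‖om (V (g • a)) (V (g • b))‖ ≤ L) :
    Lev (fun p => A *ᵥ V (g • p)) M L m := by
  obtain ⟨w1, -, w3, -⟩ := hW G P C V hV
  have low : ∀ a b, a ≠ b → 1 / 9 ≤ ‖om (A *ᵥ V (g • a)) (A *ᵥ V (g • b))‖ := fun a b h => by
    rw [om_mulVec, hA, one_mul]
    exact w1 _ _ ((MulAction.injective g).ne h)
  refine ⟨by simp only [hg, hi], low, fun a b h => ?_, hM, m0, ?_⟩
  · rw [om_mulVec, hA, one_mul]; exact hL a b h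
  · obtain ⟨ε, e1, e2⟩ := w3 g ∞
    refine ⟨ε, by rcases e1 with rfl | rfl <;> simp, fun k => ?_⟩
    obtain ⟨s, s1, s2⟩ := e2 1 (pz k)
    rw [hg, zpow_one, hm] at s2
    obtain ⟨a, b⟩ := shift hA hi s2
    have n1 : (A *ᵥ V (g • pz k)) 1 ≠ 0 := fun t => by
      have := low ∞ (pz k) (infty_ne_coe _)
      rw [hg, hi] at this
      simp [om, t] at this
      linarith
    have s0 : s ≠ 0 := fun t => by simp [t] at s1
    unfold zc
    rw [← mul_div_mul_left _ _ s0, a, b]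
    field_simp
    simp

end COV0

open COV0 in
theorem stCOV0 (hW : St_WCR) (hE : St_LEV) (hO : St_OM) (hF : St_FIN) (hK : St_LINK) :
    St_COV0 := by
  classical
  intro G _ _ C φ H hH hd
  obtain ⟨K1, k1⟩ := bd φ H
  obtain ⟨K2, k2⟩ := bd φ H⁻¹
  obtain ⟨m, m0, hm⟩ := trans φ
  set M0 : ℤ := max 1 (max K1 K2) with hM0
  have M1 : 1 ≤ M0 := le_max_left _ _
  have M2 : 1 ≤ M0 ^ 2 + M0 := by nlinarith
  refine ⟨M0 ^ 2 + M0, M2, fun L ρ hL hρ => ?_⟩
  set ρ' : ℝ := ρ + ρ ^ 2 + 81 * L * |(m : ℝ)| with hρ'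
  have ρ0 : 0 ≤ ρ' := by positivity
  obtain ⟨N, hN⟩ := hE G C φ (9 * L * ρ + L * (1 + ρ' + ρ) * ρ)
  refine ⟨N, fun V A J β hV hA hi hU c1 c2 ξ r hξ r1 r2 => ?_⟩
  by_contra hc
  push Not at hc
  have hr : 0 < r := lt_of_lt_of_le (by positivity) r1
  have r3 : 1 ≤ ρ * r := by rwa [div_le_iff₀ (by positivity), mul_comm] at r1
  have fix : ∀ j : ℤ, H ^ j • (∞ : P) = ∞ := fun j =>
    (MulAction.stabilizer G (∞ : P)).zpow_mem hH j
  let Y : ℤ → P → V2 := fun j p => A *ᵥ V (H ^ j • p)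
  have lv : ∀ j : ℤ, |j| ≤ J → Lev (Y j) (M0 ^ 2 + M0) L m := fun j hj =>
    lev hW m0 hm hV hA hi (fix j) M2 (hU j hj)
  have cc := fun j hj => coc hO hF (lv j hj) hL (β + ξ) hr fun a => (hc _).le
  have up : ∀ j : ℤ, |j| ≤ J → II (Y j) (β + ξ) r = 0 → II (Y (j + 1)) (β + ξ) r = 0 :=
    fun j hj h => by
      have := chain M0 (fun p => H • p) (MulAction.injective H) (fun a b t =>
        (k1 a b t).trans ((le_max_left _ _).trans (le_max_right _ _))) _ (cc j hj) h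
      simpa only [II, Y, _root_.zpow_add_one, mul_smul] using this
  have dn : ∀ j : ℤ, |j| ≤ J → II (Y j) (β + ξ) r = 0 → II (Y (j - 1)) (β + ξ) r = 0 :=
    fun j hj h => by
      have := chain M0 (fun p => H⁻¹ • p) (MulAction.injective H⁻¹) (fun a b t =>
        (k2 a b t).trans ((le_max_right _ _).trans (le_max_right _ _))) _ (cc j hj) h
      simpa only [II, Y, _root_.zpow_sub_one, mul_smul] using this
  have all : ∀ j k : ℤ, |j| ≤ J → |k| ≤ J → II (Y j) (β + ξ) r = 0 → II (Y k) (β + ξ) r = 0 := by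
    intro j k hj hk h
    rw [abs_le] at hj hk
    rcases le_total j k with t | t
    · induction k, t using Int.le_induction with
      | base => exact h
      | succ k t ih => exact up k (abs_le.2 (by omega)) (ih (by omega))
    · induction k, t using Int.le_induction_down with
      | base => exact h
      | pred k t ih => exact dn k (abs_le.2 (by omega)) (ih (by omega))
  let S : Finset ℤ := (Finset.Icc (-J : ℤ) J).filter fun j => (∃ a b, |D a b| = 1 ∧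
    ‖fr (β + ξ) r (Y j a)‖ ≤ 9 * L / r ∧ ‖fr (β + ξ) r (Y j b)‖ ≤ 9 * L / r) ∨
      |(zc (Y j p0)).im - β.im| ≤ ρ'
  have hS : S.card ≤ N := by
    refine hN V (frM (β + ξ) r * A) H S hV (by rw [det_mul, frM_det _ hr.ne', hA, one_mul]) hd
      fun j hj => ?_
    simp only [← mulVec_mulVec, frM_mul]
    obtain ⟨j1, j2⟩ := Finset.mem_filter.1 hj
    have q0 : 0 ≤ L * (1 + ρ' + ρ) * ρ := by positivity
    rcases j2 with ⟨a, b, h1, h2, h3⟩ | j2
    · have : 9 * L / r ≤ 9 * L * ρ + L * (1 + ρ' + ρ) * ρ := by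
        rw [div_le_iff₀ hr]
        nlinarith [mul_nonneg q0 hr.le]
      refine ⟨1, one_mem _, a, b, h1, ?_, ?_⟩ <;> rw [one_smul]
      exacts [h2.trans this, h3.trans this]
    · have l := lv j (abs_le.2 (Finset.mem_Icc.1 j1))
      obtain ⟨ε, e1, e2⟩ := (hW G P C V hV).2.2.1 1 ∞
      set z := zc (Y j p0) - (β + ξ) with hz
      obtain ⟨s, s1, s2⟩ := e2 (ε * -⌊z.re⌋) (H ^ j • p0)
      simp only [one_smul] at s2
      obtain ⟨a, b⟩ := shift hA hi s2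
      have e3 : (ε : ℂ) * ((ε * -⌊z.re⌋ : ℤ) : ℂ) = -(⌊z.re⌋ : ℂ) := by
        rcases e1 with rfl | rfl <;> simp
      rw [e3] at a
      have d1 : |D ∞ p0| = 1 := by simp [D]
      have y1 := l.low ∞ p0 (infty_ne_coe _)
      have y2 := l.up ∞ p0 (d1.le.trans M2)
      rw [l.inf] at y1 y2
      simp only [om, cons_val_zero, one_mul, cons_val_one, zero_mul, sub_zero] at y1 y2
      have y0 : Y j p0 1 ≠ 0 := fun t => by rw [t, norm_zero] at y1; linarith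
      refine ⟨C.c ∞ ^ (ε * -⌊z.re⌋), zpow_mem (C.c_mem _) _, ∞, p0, d1, ?_, ?_⟩
      · rw [fix, show C.c ∞ ^ (ε * -⌊z.re⌋) • (∞ : P) = ∞ from
          (MulAction.stabilizer G (∞ : P)).zpow_mem (C.c_fix ∞) _, hi]
        refine norm_fr_le _ hr _ ?_ (by simp; positivity)
        simp only [cons_val_zero, cons_val_one, mul_zero, sub_zero, norm_one]
        nlinarith [mul_nonneg q0 hr.le]
      · generalize A *ᵥ V (C.c ∞ ^ (ε * -⌊z.re⌋) • H ^ j • p0) = w at a b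
        change _ = Y j p0 0 + _ * Y j p0 1 at a
        change _ = Y j p0 1 at b
        have n1 : ‖w 1‖ = ‖Y j p0 1‖ := by rw [← b, norm_mul, s1, one_mul]
        have n0 : ‖w 0 - (β + ξ) * w 1‖ = ‖z - ⌊z.re⌋‖ * ‖Y j p0 1‖ := by
          rw [← one_mul ‖w 0 - _‖, ← s1, ← norm_mul, ← norm_mul]
          congr 1
          rw [mul_sub, a, mul_left_comm, b, hz, zc]
          field_simp
          ring
        have n2 : ‖z - ⌊z.re⌋‖ ≤ 1 + ρ' + ρ := by
          refine (Complex.norm_le_abs_re_add_abs_im _).trans ?_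
          have f1 := Int.floor_le z.re
          have f2 := Int.lt_floor_add_one z.re
          have f3 := abs_le.1 ((Complex.abs_im_le_norm ξ).trans hξ)
          have f4 := abs_le.1 j2
          have f5 : |z.re - ⌊z.re⌋| ≤ 1 := abs_le.2 ⟨by linarith, by linarith⟩
          have f6 : |z.im| ≤ ρ' + ρ := by
            rw [hz, Complex.sub_im, Complex.add_im, abs_le]
            constructor <;> linarith
          simp only [Complex.sub_re, Complex.intCast_re, Complex.sub_im, Complex.intCast_im,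
            sub_zero]
          linarith
        refine norm_fr_le _ hr _ ?_ ?_
        · rw [n0]
          have := mul_le_mul n2 y2 (norm_nonneg _) (by positivity)
          have t : 0 ≤ L * (1 + ρ' + ρ) := by positivity
          nlinarith [mul_le_mul_of_nonneg_left r3 t, mul_pos (mul_pos (by positivity : 0 < 9 * L)
            (by positivity : 0 < ρ)) hr]
        · rw [n1]
          have := mul_le_mul r2 y2 (norm_nonneg _) (by positivity)
          nlinarith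
  have out : ∀ T : Finset ℤ, N < T.card → ∃ j ∈ T, j ∉ S := fun T h =>
    Finset.exists_mem_notMem_of_card_lt_card (by omega)
  have far : ∀ j ∈ Finset.Icc (-J : ℤ) J, j ∉ S → ρ' < |(zc (Y j p0)).im - β.im| ∧
      ∀ a b, |D a b| = 1 → 9 * L / r < ‖fr (β + ξ) r (Y j a)‖ ∨
        9 * L / r < ‖fr (β + ξ) r (Y j b)‖ := fun j h1 h2 => by
    simp only [S, Finset.mem_filter, h1, true_and, not_or, not_le, not_exists, not_and] at h2
    refine ⟨h2.2, fun a b t => ?_⟩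
    by_cases k : ‖fr (β + ξ) r (Y j a)‖ ≤ 9 * L / r
    · exact Or.inr (h2.1 a b t k)
    · exact Or.inl (not_le.1 k)
  obtain ⟨j, j1, j2⟩ := out _ c1
  obtain ⟨k, k1, k2⟩ := out _ c2
  obtain ⟨j3, j4⟩ := Finset.mem_filter.1 j1
  obtain ⟨k3, k4⟩ := Finset.mem_filter.1 k1
  obtain ⟨j5, j6⟩ := far j j3 j2
  obtain ⟨k5, k6⟩ := far k k3 k2
  have j7 := abs_le.2 (Finset.mem_Icc.1 j3)
  have k7 := abs_le.2 (Finset.mem_Icc.1 k3)
  have f3 := abs_le.1 ((Complex.abs_im_le_norm ξ).trans hξ)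
  have r4 : r ^ 2 ≤ ρ ^ 2 := by gcongr
  rw [abs_of_nonneg (sub_nonneg.2 j4)] at j5
  rw [abs_of_nonpos (sub_nonpos.2 k4)] at k5
  have a := (hK _ _ _ _ (lv j j7) (β + ξ) r hr j6).1 fun i => by
    have := abs_le.1 ((hF _ _ _ _ (lv j j7)).1 i)
    rw [Complex.sub_im, Complex.add_im]
    linarith
  have b := (hK _ _ _ _ (lv k k7) (β + ξ) r hr k6).2 fun i => by
    have := abs_le.1 ((hF _ _ _ _ (lv k k7)).1 i)
    rw [Complex.sub_im, Complex.add_im]
    linarith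
  exact zero_ne_one ((all j k j7 k7 a).symm.trans b)

end Pool.Agent.Lib.THU.GE
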