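import Pool.Agent.Lib.THU.GE.Defs
import Pool.Agent.Lib.THU.CV.Final

/-!
Invariant lambda lengths give a discrete subgroup of the Lorentz group.
-/

namespace Pool.Agent.Lib.THU.GE

open Pool.Agent.Lib.THU28 (om)

theorem stGRAM : St_GRAM := by
  rintro G _ Q _ u c hc ⟨a, b, hab⟩ tf fx low inv
  have e : ∀ p q, ‖NB.om (((√c)⁻¹ : ℝ) • u p) (((√c)⁻¹ : ℝ) • u q)‖ = ‖om (u p) (u q)‖ / c :=
    fun p q => by
      have : NB.om (((√c)⁻¹ : ℝ) • u p) (((√c)⁻¹ : ℝ) • u q) =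
          (((√c)⁻¹ * (√c)⁻¹ : ℝ) : ℂ) * om (u p) (u q) := by
        simp [NB.om, om]; ring
      rw [this, norm_mul, ← mul_inv, Real.mul_self_sqrt hc.le, Complex.norm_real,
        Real.norm_of_nonneg (inv_nonneg.2 hc.le), inv_mul_eq_div]
  exact CV.final G Q tf a b hab (fun g => fx g a b hab) (fun p => ((√c)⁻¹ : ℝ) • u p)
    (fun p q h => by rw [e]; exact (one_le_div hc).2 (low p q h)) fun g p q => by rw [e, e, inv]

end Pool.Agent.Lib.THU.GE
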