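import Pool.Agent.Lib.THU.GE.Defs
import Pool.Agent.Lib.THU.NB.RT

/-!
The limit of the middle levels has invariant lambda lengths.
-/

namespace Pool.Agent.Lib.THU.GE

open Matrix OnePoint Filter Topology
open Pool.Agent.Lib.THU28 (V2 M2 om tv om_mulVec tv_mulVec om_self norm_om_swap om_smul_left
  om_smul_right tv_det)
open Pool.Agent.Lib.THU.FA (P D)
open Pool.Agent.Lib.THU.AN (CRE)

namespace LIMIT

lemma co_sub (a b c : V2) {p q : V2} (hp : om p a ≠ 0) (hq : om q a ≠ 0) :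
    co a b c p - co a b c q = om b a * om c a / om c b * om p q / (om p a * om q a) := by
  have : om p b * om q a - om q b * om p a = om p q * om b a := by simp only [om]; ring
  by_cases h : om c b = 0
  · simp [co, h]
  · unfold co; field_simp; linear_combination om c a * this

lemma cre (a b c : V2) (X Y : Fin 4 → V2) (s : Fin 4 → ℂ) (hX : ∀ k, om (X k) a ≠ 0)
    (hY : ∀ k, om (Y k) a ≠ 0) (h : ∀ i j, om (X i) (X j) = s i * s j * om (Y i) (Y j)) :
    CRE (fun k => co a b c (X k)) fun k => co a b c (Y k) := by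
  simp only [CRE, co_sub a b c (hX _) (hX _), co_sub a b c (hY _) (hY _), h]
  ring

lemma co_fr {a b c : V2} (ha : a 1 = 0) (hb : b 0 = 0) (hc : c 0 = c 1) (h1 : om c a ≠ 0)
    (h2 : om c b ≠ 0) (x : V2) : co a b c x = zc x := by
  simp only [co, zc, om, ha, hb, hc, mul_zero, zero_sub, sub_zero, ne_eq, neg_eq_zero,
    mul_eq_zero, not_or] at *
  by_cases h : x 1 = 0
  · simp [h]
  · obtain ⟨h3, h4⟩ := h1
    obtain ⟨-, h5⟩ := h2
    field_simp

lemma t_om {F : Filter ℕ} {x y : ℕ → V2} {a b : V2} (h : Tendsto x F (𝓝 a))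
    (h' : Tendsto y F (𝓝 b)) : Tendsto (fun n => om (x n) (y n)) F (𝓝 (om a b)) :=
  ((tendsto_pi_nhds.1 h 0).mul (tendsto_pi_nhds.1 h' 1)).sub
    ((tendsto_pi_nhds.1 h 1).mul (tendsto_pi_nhds.1 h' 0))

lemma box {x y z L : ℝ} (hx : 0 ≤ x) (hy : 0 ≤ y) (_ : 0 ≤ z) (h1 : 1 / 9 ≤ x * y)
    (h2 : x * y ≤ L) (h3 : 1 / 9 ≤ x * z) (h4 : x * z ≤ L) (h5 : 1 / 9 ≤ y * z) (h6 : y * z ≤ L) :
    1 ≤ (81 * L + 1) * x ∧ x ≤ 81 * L + 1 := by
  have a : x ^ 2 * (y * z) = x * y * (x * z) := by ring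
  have b : 1 / 81 ≤ x ^ 2 * L := by nlinarith [mul_le_mul h1 h3 (by norm_num) (by positivity)]
  have c : x ^ 2 / 9 ≤ L ^ 2 := by nlinarith [mul_le_mul h2 h4 (by positivity) (by linarith)]
  refine ⟨?_, by nlinarith⟩
  rcases le_total x 1 with h | h <;> nlinarith

lemma rigid (N N' : P → P → ℝ) (c : P → P → P) (κ κ' : ℝ)
    (s : ∀ a b, N a b = N b a) (s' : ∀ a b, N' a b = N' b a) (z : ∀ a, N a a = 0)
    (z' : ∀ a, N' a a = 0) (po : ∀ a b, a ≠ b → 0 < N a b) (po' : ∀ a b, a ≠ b → 0 < N' a b)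
    (w : ∀ a b, N a (c b a) = N a b ^ 2 ∧ N b (c b a) = N a b)
    (w' : ∀ a b, N' a (c b a) = N' a b ^ 2 ∧ N' b (c b a) = N' a b) (hκ : 0 < κ)
    (h : ∀ p q, p ≠ ∞ → q ≠ ∞ → κ' * N' p q / (N' p ∞ * N' q ∞) = κ * N p q / (N p ∞ * N q ∞))
    (a b : P) : N' a b = N a b := by
  have e : κ' = κ := by
    have h0 : p0 ≠ ∞ := coe_ne_infty _
    have k := po _ _ h0
    have k' := po' _ _ h0
    have := h p0 (c ∞ p0) h0 fun t => k.ne' (by rw [← (w p0 ∞).2, t, z])
    rw [(w _ _).1, (w' _ _).1, s (c _ _), s' (c _ _), (w _ _).2, (w' _ _).2] at this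
    field_simp at this
    exact this
  have f : ∀ b, b ≠ ∞ → N' b ∞ = N b ∞ := fun b hb => by
    have k := po _ _ hb.symm
    have k' := po' _ _ hb.symm
    have := h b (c b ∞) hb fun t => (pow_pos k 2).ne' (by rw [← (w ∞ b).1, t, z])
    rw [(w _ _).2, (w' _ _).2, s (c _ _), s' (c _ _), (w _ _).1, (w' _ _).1, s b, s' b, e] at this
    field_simp at this
    rw [s, s']
    exact (pow_left_inj₀ k'.le k.le two_ne_zero).1 this.symm
  by_cases ha : a = ∞ <;> by_cases hb : b = ∞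
  · rw [ha, hb, z, z']
  · rw [ha, s, s', f b hb]
  · rw [hb, f a ha]
  · have := h a b ha hb
    have k := po _ _ ha
    have k' := po _ _ hb
    rw [f a ha, f b hb, e] at this
    field_simp at this
    exact this

end LIMIT

open LIMIT

theorem stLIMIT (hW : St_WCR) (hT : St_THK) (hR : AN.St_RIG) : St_LIMIT := by
  rintro E G _ _ C V K hV hU hQ ⟨R, g, B, hB, c1, c2, c3, c4, c5⟩
  let U := hyperfilter ℕ
  have hu : (U : Filter ℕ) ≤ atTop := Nat.hyperfilter_le_atTop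
  let W : ℕ → P → V2 := fun n a => B n *ᵥ V n a
  have ow : ∀ n a b, om (W n a) (W n b) = om (V n a) (V n b) := fun n a b => by
    rw [om_mulVec, hB, one_mul]
  have w := fun n => hW G P C (V n) (hV n)
  have lo : ∀ n (γ : G) {a b : P}, a ≠ b → 1 / 9 ≤ ‖om (V n (γ • a)) (V n (γ • b))‖ :=
    fun n γ _ _ h => (w n).1 _ _ ((MulAction.injective γ).ne h)
  have n0 : ∀ n {a b : P}, a ≠ b → om (V n a) (V n b) ≠ 0 := fun n _ _ h => (hV n).inj _ _ h
  have up : ∀ a b : P, ∃ L, ∀ n, ‖om (W n (g n • a)) (W n (g n • b))‖ ≤ L := fun a b =>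
    let ⟨L, h⟩ := hU |D a b|; ⟨L, fun n => ow n _ _ ▸ h n _ a b (c4 n) le_rfl⟩
  have i0 : (∞ : P) ≠ p0 := infty_ne_coe _
  have i1 : (∞ : P) ≠ p1 := infty_ne_coe _
  have i2 : p0 ≠ p1 := fun h => zero_ne_one (coe_eq_coe.1 h)
  obtain ⟨Λ, hΛ⟩ : ∃ Λ : ℝ, ∀ n, (1 ≤ Λ * ‖W n (g n • ∞) 0‖ ∧ ‖W n (g n • ∞) 0‖ ≤ Λ) ∧
      1 ≤ Λ * ‖W n (g n • p0) 1‖ := by
    obtain ⟨L1, h1⟩ := up ∞ p0
    obtain ⟨L2, h2⟩ := up ∞ p1
    obtain ⟨L3, h3⟩ := up p0 p1
    refine ⟨81 * max L1 (max L2 L3) + 1, fun n => ?_⟩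
    have a1 := (h1 n).trans (le_max_left _ (max L2 L3))
    have a2 := (h2 n).trans ((le_max_left _ L3).trans (le_max_right L1 _))
    have a3 := (h3 n).trans ((le_max_right L2 _).trans (le_max_right L1 _))
    have b1 := ow n _ _ ▸ lo n (g n) i0
    have b2 := ow n _ _ ▸ lo n (g n) i1
    have b3 := ow n _ _ ▸ lo n (g n) i2
    simp only [W, om, c1, c2, c3, zero_mul, sub_zero, zero_sub, norm_neg, norm_mul] at *
    exact ⟨box (norm_nonneg _) (norm_nonneg _) (norm_nonneg _) b1 a1 b2 a2 b3 a3,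
      (box (norm_nonneg _) (norm_nonneg _) (norm_nonneg _) (by rwa [mul_comm])
        (by rwa [mul_comm]) b3 a3 b2 a2).1⟩
  have ex : ∀ p : P, ∃ u, Tendsto (fun n => W n (g n • p)) U (𝓝 u) := fun p => by
    obtain ⟨L1, h1⟩ := up ∞ p
    obtain ⟨L2, h2⟩ := up p p0
    have Λ0 : 0 ≤ Λ := (norm_nonneg _).trans (hΛ 0).1.2
    obtain ⟨u, -, h⟩ := (isCompact_closedBall (0 : V2) (Λ * (|L1| + |L2|))).ultrafilter_le_nhds
      (U.map fun n => W n (g n • p)) (le_principal_iff.2 (mem_map.2 (univ_mem' fun n => by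
        have a1 := mul_le_mul_of_nonneg_left ((h1 n).trans (le_abs_self _)) Λ0
        have a2 := mul_le_mul_of_nonneg_left ((h2 n).trans (le_abs_self _)) Λ0
        have a3 := hΛ n
        simp only [W, om, c1, c2, zero_mul, mul_zero, sub_zero, norm_mul] at a1 a2 a3
        refine mem_closedBall_zero_iff.2 ((pi_norm_le_iff_of_nonneg (by positivity)).2
          (Fin.forall_fin_two.2 ⟨?_, ?_⟩))
        · nlinarith [mul_le_mul_of_nonneg_left a3.2 (norm_nonneg ((B n *ᵥ V n (g n • p)) 0)),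
            mul_nonneg Λ0 (abs_nonneg L1)]
        · nlinarith [mul_le_mul_of_nonneg_left a3.1.1 (norm_nonneg ((B n *ᵥ V n (g n • p)) 1)),
            mul_nonneg Λ0 (abs_nonneg L2)])))
    exact ⟨u, h⟩
  choose u hl using ex
  have tm : ∀ a b, Tendsto (fun n => om (V n (g n • a)) (V n (g n • b))) U (𝓝 (om (u a) (u b))) :=
    fun a b => by simpa only [ow] using t_om (hl a) (hl b)
  have sep : ∀ a b, a ≠ b → 1 / 9 ≤ ‖om (u a) (u b)‖ := fun a b h =>
    ge_of_tendsto' (tm a b).norm fun n => lo n _ h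
  have po : ∀ a b, a ≠ b → 0 < ‖om (u a) (u b)‖ := fun a b h => lt_of_lt_of_le (by norm_num) (sep a b h)
  have w4 : ∀ (γ : G) a b, ‖om (u (γ • a)) (u (γ • C.c b • a))‖ = ‖om (u (γ • a)) (u (γ • b))‖ ^ 2 ∧
      ‖om (u (γ • b)) (u (γ • C.c b • a))‖ = ‖om (u (γ • a)) (u (γ • b))‖ := fun γ a b => by
    have := fun n => (w n).2.2.2 (g n * γ) a b 1
    simp only [mul_smul, zpow_one, Int.cast_one, abs_one, one_mul] at this
    exact ⟨tendsto_nhds_unique (tm _ _).norm (((tm _ _).norm.pow 2).congr fun n => (this n).1.symm),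
      tendsto_nhds_unique (tm _ _).norm ((tm _ _).norm.congr fun n => (this n).2.symm)⟩
  choose hn q1 q2 using fun n => hQ n (g n)
  have cz : ∀ n a, co (V n (g n • ∞)) (V n (g n • p0)) (V n (g n • p1)) (V n a) = zc (W n a) :=
    fun n a => by
      rw [← co_fr (c1 n) (c2 n) (c3 n) (ow n _ _ ▸ n0 n ((MulAction.injective _).ne i1.symm))
        (ow n _ _ ▸ n0 n ((MulAction.injective _).ne i2.symm))]
      simp only [co, om_mulVec, hB, one_mul, W]
  have ti : ∀ n {a b : P}, a ≠ b → om (V n (g n • C.t • a)) (V n (g n • C.t • b)) ≠ 0 :=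
    fun n _ _ h => n0 n ((MulAction.injective _).ne ((MulAction.injective _).ne h))
  have z0 : ∀ n, hn n 0 = 0 := fun n => by simpa [co, om_self] using q2 n p0 i0.symm
  have z1 : ∀ n, hn n 1 = 1 := fun n => by
    have := q2 n p1 i1.symm
    rwa [co, co, mul_comm, div_self (mul_ne_zero (n0 n ((MulAction.injective _).ne i1.symm))
      (n0 n ((MulAction.injective _).ne i2.symm))), mul_comm,
      div_self (mul_ne_zero (ti n i1.symm) (ti n i2.symm))] at this
  obtain ⟨K', hK⟩ := E.cpt K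
  obtain ⟨h, h1, h2, -⟩ := hK U hn (fun _ => 0) (fun _ => 1) 0 1 0 1 q1 tendsto_const_nhds
    tendsto_const_nhds zero_ne_one (by simp [z0]) (by simp [z1]) zero_ne_one
  have tc : ∀ {x : ℕ → ℂ} {y : ℂ}, Tendsto x U (𝓝 y) → Tendsto (fun n => hn n (x n)) U (𝓝 (h y)) :=
    fun t => h2.tendsto_comp h.continuous.continuousAt t
  obtain ⟨B', Bad, b1, b2⟩ := hT U P W (fun n => g n • ∞) (fun a q => C.c a • q) (fun n => hn n) h R Λ
    hu h.continuous h2 (fun n a b t => ow n a b ▸ (w n).1 a b t) c1 (fun n => (hΛ n).1)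
    (fun ξ r hr => hu (c5 ξ r hr))
    (fun n a q => ((hV n).par a).2 q |>.imp fun s t => by
      rw [tv_mulVec] at t ⊢
      rw [ow, ← mulVec_smul, ← mulVec_smul, ← mulVec_add, t]; rfl)
    (fun n a q t => by
      have k : ∀ x, x ≠ g n • ∞ → hn n (zc (W n x)) = co (V n (g n • C.t • ∞)) (V n (g n • C.t • p0))
          (V n (g n • C.t • p1)) (V n ((g n * C.t * (g n)⁻¹) • x)) ∧
          om (V n ((g n * C.t * (g n)⁻¹) • x)) (V n (g n • C.t • ∞)) ≠ 0 := fun x hx => by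
        have hx' : (g n)⁻¹ • x ≠ ∞ := fun e => hx (inv_smul_eq_iff.1 e)
        have := q2 n _ hx'
        rw [cz, smul_inv_smul] at this
        rw [mul_smul, mul_smul]
        exact ⟨this, ti n hx'⟩
      obtain ⟨ε, -, r⟩ := (w n).2.2.1 (g n * C.t * (g n)⁻¹) a
      choose s s1 s2 using fun k => r 1 (q k)
      simp only [fun i => (k _ (t i).1).1, fun i => (k _ (t i).2).1]
      refine cre _ _ _ _ _ s (fun i => (k _ (t i).1).2) (fun i => (k _ (t i).2).2) fun i j => ?_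
      have := om_mulVec (tv (V n ((g n * C.t * (g n)⁻¹) • a)) (ε * (1 : ℤ)))
        (V n ((g n * C.t * (g n)⁻¹) • q i)) (V n ((g n * C.t * (g n)⁻¹) • q j))
      rw [s2, s2, tv_det, one_mul, om_smul_left, om_smul_right, zpow_one] at this
      rw [← this, mul_assoc (s i)])
  obtain ⟨α, β, -, r⟩ := hR E K' B' h Bad h1 b1 b2
  have y0 : h 0 = 0 := tendsto_nhds_unique (tc tendsto_const_nhds) (by simp [z0])
  have y1 : h 1 = 1 := tendsto_nhds_unique (tc tendsto_const_nhds) (by simp [z1])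
  have iso : ∀ x y, ‖h x - h y‖ = ‖x - y‖ := fun x y => by
    rcases r with r | r <;> simp only [r, map_zero, map_one, mul_zero, zero_add, mul_one] at y0 y1 ⊢
      <;> rw [y0, add_zero] at y1 <;> rw [y0, y1, add_zero, add_zero, one_mul, one_mul]
    rw [← map_sub, Complex.norm_conj]
  have ne : ∀ {a b : P}, a ≠ b → om (u a) (u b) ≠ 0 := fun h => norm_pos_iff.1 (po _ _ h)
  have tn : ∀ {a b : P}, a ≠ b → C.t • a ≠ C.t • b := fun h => (MulAction.injective _).ne h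
  have lim : ∀ p, p ≠ ∞ → h (co (u ∞) (u p0) (u p1) (u p)) =
      co (u (C.t • ∞)) (u (C.t • p0)) (u (C.t • p1)) (u (C.t • p)) := fun p hp =>
    tendsto_nhds_unique (tc (((tm _ _).mul (tm _ _)).div ((tm _ _).mul (tm _ _))
      (mul_ne_zero (ne hp) (ne i2.symm)))) ((((tm _ _).mul (tm _ _)).div ((tm _ _).mul (tm _ _))
        (mul_ne_zero (ne (tn hp)) (ne (tn i2.symm)))).congr fun n => (q2 n p hp).symm)
  have tt := rigid (fun a b => ‖om (u a) (u b)‖) (fun a b => ‖om (u (C.t • a)) (u (C.t • b))‖)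
    (fun b a => C.c b • a) ‖om (u p0) (u ∞) * om (u p1) (u ∞) / om (u p1) (u p0)‖
    ‖om (u (C.t • p0)) (u (C.t • ∞)) * om (u (C.t • p1)) (u (C.t • ∞)) /
      om (u (C.t • p1)) (u (C.t • p0))‖
    (fun _ _ => norm_om_swap _ _) (fun _ _ => norm_om_swap _ _) (fun _ => by simp [om_self])
    (fun _ => by simp [om_self]) po (fun a b t => po _ _ (tn t))
    (fun a b => by simpa using w4 1 a b) (w4 C.t)
    (norm_pos_iff.2 (div_ne_zero (mul_ne_zero (ne i0.symm) (ne i1.symm)) (ne i2.symm)))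
    fun p q hp hq => by
      have := iso (co (u ∞) (u p0) (u p1) (u p)) (co (u ∞) (u p0) (u p1) (u q))
      rwa [lim p hp, lim q hq, co_sub _ _ _ (ne hp) (ne hq), co_sub _ _ _ (ne (tn hp)) (ne (tn hq)),
        norm_div, norm_div, norm_mul, norm_mul, norm_mul, norm_mul] at this
  let H : Subgroup G :=
    { carrier := {γ | ∀ a b, ‖om (u (γ • a)) (u (γ • b))‖ = ‖om (u a) (u b)‖}
      one_mem' := fun a b => by simp
      mul_mem' := fun hx hy a b => by rw [mul_smul, mul_smul, hx, hy]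
      inv_mem' := fun {x} hx a b => by rw [← hx, smul_inv_smul, smul_inv_smul] }
  refine ⟨u, sep, fun γ => ?_⟩
  obtain ⟨f, hf, e⟩ := C.decomp γ
  rw [e]
  exact H.mul_mem (fun a b => tendsto_nhds_unique (tm _ _).norm
    ((tm _ _).norm.congr fun n => ((w n).2.1 f hf _ a b).symm)) (H.zpow_mem tt _)

end Pool.Agent.Lib.THU.GE
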