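import Pool.Agent.Lib.THU.GE.Defs

/-! Obtuse pairs are near, and the parity far above and far below the link of a cusp. -/

set_option autoImplicit false

namespace Pool.Agent.Lib.THU.GE

open OnePoint
open scoped Classical ComplexConjugate
open Pool.Agent.Lib.THU28 (V2 om)
open Pool.Agent.Lib.THU.FA (P D pt)
open Pool.Agent.Lib.THU.CV (FP apex rt dd sum_dd apex_l apex_r apex_rot ab_symm fa_ne two)

namespace LINK

lemma om_fr (ξ : ℂ) {r : ℝ} (hr : 0 < r) (x y : V2) : om (fr ξ r x) (fr ξ r y) = om x y := by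
  have : (r : ℂ) ≠ 0 := by exact_mod_cast hr.ne'
  simp only [om, fr, Matrix.cons_val_zero, Matrix.cons_val_one]
  field_simp
  ring

lemma norm_hp {x : V2} (h : hp x) : ‖x‖ ≤ ‖x 0‖ := by
  refine (pi_norm_le_iff_of_nonneg (norm_nonneg _)).2 fun i => ?_
  fin_cases i
  · exact le_rfl
  · exact le_of_lt h

lemma obt {x y : V2} (h : (zt x * conj (zt y)).re ≤ 0) : ‖x 0‖ * ‖y 1‖ ≤ ‖om x y‖ := by
  rw [← norm_mul, ← sq_le_sq₀ (norm_nonneg _) (norm_nonneg _), Complex.sq_norm, Complex.sq_norm,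
    om, Complex.normSq_sub]
  have e : (x 0 * y 1 * conj (x 1 * y 0)).re = (zt x * conj (zt y)).re := by
    simp [zt]; ring
  have := Complex.normSq_nonneg (x 1 * y 0)
  linarith

lemma low1 {Y : P → V2} {M : ℤ} {L : ℝ} {m : ℤ} (h : Lev Y M L m) {b : P} (hb : b ≠ ∞) :
    1 / 9 ≤ ‖Y b 1‖ := by
  simpa [h.inf, om] using h.low ∞ b hb.symm

lemma near1 {Y : P → V2} {M : ℤ} {L : ℝ} {m : ℤ} (h : Lev Y M L m) (ξ : ℂ) {r : ℝ} (hr : 0 < r)
    {a b : P} (hb : b ≠ ∞) (hD : |D a b| ≤ M) (pa : hp (fr ξ r (Y a)))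
    (o : (zt (fr ξ r (Y a)) * conj (zt (fr ξ r (Y b)))).re ≤ 0) : ‖fr ξ r (Y a)‖ ≤ 9 * L / r := by
  have h1 := obt o
  rw [om_fr ξ hr] at h1
  have h2 := h.up a b hD
  have h3 := low1 h hb
  have h4 : ‖fr ξ r (Y b) 1‖ = r * ‖Y b 1‖ := by simp [fr, abs_of_pos hr]
  refine (norm_hp pa).trans ((le_div_iff₀ hr).2 ?_)
  rw [h4] at h1
  have h5 := mul_nonneg (norm_nonneg (fr ξ r (Y a) 0)) hr.le
  nlinarith

/-- the oriented edges that start at `∞` -/
def ed (k : ℤ) : FP := ⟨(∞, pz k), by simp [D]⟩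

lemma ed_inj : Function.Injective ed := fun k l h => by
  have := congrArg (fun x : FP => x.1.2) h
  simpa [ed] using this

lemma apex_ed (k : ℤ) : apex ∞ (pz k) = pz (k + 1) := by
  simp [apex, pt, D, add_comm]

lemma ex_ed {x : FP} (h : x.1.1 = ∞) : ∃ k, x = ed k := by
  obtain ⟨⟨a, b⟩, hb⟩ := x
  obtain rfl : a = ∞ := h
  cases b using OnePoint.rec with
  | infty => simp [D] at hb
  | coe q =>
    have : q.den = 1 := by
      have : (q.den : ℤ) = 1 := by simpa [D] using hb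
      exact_mod_cast this
    exact ⟨q.num, Subtype.ext (by simp [ed, Rat.coe_int_num_of_den_eq_one this])⟩

lemma kk_zero (q : ℂ) : kk 0 q = 0 := by simp [kk]

lemma kk_neg {p q : ℂ} (hp : p.im < 0) (hq : q.im < 0) : kk p q = 0 := by
  refine if_neg fun e => ?_
  rcases e with ⟨a, b, c⟩ | ⟨a, b, c⟩ <;> simp at c <;> nlinarith

/-- the indicator of the right half plane -/
noncomputable def sg (t : ℝ) : ZMod 2 := if 0 < t then 1 else 0

lemma kk_up {p q : ℂ} (hp : 0 < p.im) (hq : 0 < q.im) : kk p q = sg q.re - sg p.re := by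
  unfold kk sg
  by_cases a : 0 < p.re <;> by_cases b : 0 < q.re
  · rw [if_neg (fun e => e.elim (fun e => e.2.1.not_gt b) fun e => e.2.1.not_gt a), if_pos a,
      if_pos b, sub_self]
  · rw [if_pos (Or.inl ⟨a, not_lt.1 b, by simp; nlinarith [not_lt.1 b]⟩), if_pos a, if_neg b]
    rfl
  · rw [if_pos (Or.inr ⟨b, not_lt.1 a, by simp; nlinarith [not_lt.1 a]⟩), if_pos b, if_neg a]
    rfl
  · rw [if_neg (fun e => e.elim (fun e => a e.1) fun e => b e.1), if_neg a, if_neg b, sub_self]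

lemma zt_fr (ξ : ℂ) {r : ℝ} (hr : 0 < r) {x : V2} (hx : x 1 ≠ 0) :
    zt (fr ξ r x) = (‖x 1‖ ^ 2 : ℝ) * conj (zc x - ξ) := by
  have : (r : ℂ) ≠ 0 := by exact_mod_cast hr.ne'
  have h2 : conj (x 1) ≠ 0 := by simpa using hx
  rw [← Complex.normSq_eq_norm_sq, ← Complex.mul_conj]
  simp only [zt, zc, fr, Matrix.cons_val_zero, Matrix.cons_val_one, map_sub, map_div₀, map_mul,
    Complex.conj_ofReal]
  field_simp

lemma hp_fr (ξ : ℂ) {r : ℝ} (hr : 0 < r) {x : V2} (hx : x 1 ≠ 0) (h : r ^ 2 < ‖zc x - ξ‖) :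
    hp (fr ξ r x) := by
  have e : x 0 - ξ * x 1 = (zc x - ξ) * x 1 := by
    unfold zc
    field_simp
  have := norm_pos_iff.2 hx
  simp only [hp, fr, Matrix.cons_val_zero, Matrix.cons_val_one, e, norm_div, norm_mul,
    Complex.norm_real, Real.norm_eq_abs, abs_of_pos hr]
  rw [lt_div_iff₀ hr]
  nlinarith

lemma ends0 (u : ℤ → ℝ) {m : ℤ} (hm : 0 < m) (h : ∀ k, u (k + m) = u k + 1) :
    ∃ N : ℕ, ∀ k : ℤ, ((N : ℤ) ≤ k → 0 < u k) ∧ (k ≤ -N → u k < 0) := by
  have it : ∀ q j : ℤ, u (j + q * m) = u j + q := by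
    intro q j
    induction q using Int.induction_on with
    | zero => simp
    | succ n ih => rw [add_mul, one_mul, ← add_assoc, h, ih]; push_cast; ring
    | pred n ih =>
      have := h (j + (-n - 1) * m)
      rw [show j + (-(n : ℤ) - 1) * m + m = j + -n * m by ring, ih] at this
      push_cast at this ⊢
      linarith
  obtain ⟨B, hB⟩ := ((Set.finite_Ico 0 m).image fun j => |u j|).bddAbove
  obtain ⟨n, hn⟩ := exists_nat_gt B
  refine ⟨(n * m).toNat, fun k => ?_⟩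
  have e := it (k / m) (k % m)
  rw [Int.emod_add_ediv_mul] at e
  have b := abs_le.1 (hB ⟨k % m, ⟨Int.emod_nonneg k hm.ne', Int.emod_lt_of_pos k hm⟩, rfl⟩)
  rw [Int.toNat_of_nonneg (by positivity)]
  refine ⟨fun hk => ?_, fun hk => ?_⟩
  · have : ((n : ℤ) : ℝ) ≤ (k / m : ℤ) := by exact_mod_cast (Int.le_ediv_iff_mul_le hm).2 hk
    push_cast at this
    linarith
  · have : ((k / m : ℤ) : ℝ) ≤ ((-n : ℤ) : ℝ) := by
      exact_mod_cast Int.ediv_le_of_le_mul hm (by linarith)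
    push_cast at this
    linarith

lemma ends (u : ℤ → ℝ) {m : ℤ} (hm : m ≠ 0) {ε : ℝ} (hε : ε = 1 ∨ ε = -1)
    (h : ∀ k, u (k + m) = u k + ε) : ∃ (N : ℕ) (c : ZMod 2), ∀ k : ℤ,
      ((N : ℤ) ≤ k → sg (u k) = c + 1) ∧ (k ≤ -N → sg (u k) = c) := by
  obtain ⟨m, hm, ε, hε, h⟩ : ∃ m : ℤ, 0 < m ∧ ∃ ε : ℝ, (ε = 1 ∨ ε = -1) ∧
      ∀ k, u (k + m) = u k + ε := by
    rcases lt_or_gt_of_ne hm with t | t
    · refine ⟨-m, by omega, -ε, by rcases hε with rfl | rfl <;> simp, fun k => ?_⟩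
      have := h (k + -m)
      rw [neg_add_cancel_right] at this
      linarith
    · exact ⟨m, t, ε, hε, h⟩
  rcases hε with rfl | rfl
  · obtain ⟨N, hN⟩ := ends0 u hm h
    exact ⟨N, 0, fun k => ⟨fun t => (if_pos ((hN k).1 t)).trans rfl,
      fun t => if_neg ((hN k).2 t).not_gt⟩⟩
  · obtain ⟨N, hN⟩ := ends0 (fun k => -u k) hm (fun k => by rw [h]; ring)
    exact ⟨N, 1, fun k => ⟨fun t => (if_neg (neg_pos.1 ((hN k).1 t)).not_gt).trans rfl,
      fun t => if_pos (neg_neg_iff_pos.1 ((hN k).2 t))⟩⟩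

/-- a rotation invariant function supported on the star of `∞` -/
lemma star (F : FP → ZMod 2) (hr : ∀ x, F (rt x) = F x)
    (h0 : ∀ x : FP, x.1.1 ≠ ∞ → x.1.2 ≠ ∞ → apex x.1.1 x.1.2 ≠ ∞ → F x = 0) :
    F = dd fun x => if x.1.1 = ∞ then F x else 0 := by
  funext x
  have n1 := fa_ne x.2
  have n2 := fa_ne (apex_r x.2)
  have n3 := fa_ne (apex_l x.2)
  have e : dd (fun x => if x.1.1 = ∞ then F x else 0) x = (if x.1.1 = ∞ then F x else 0) +
      (if x.1.2 = ∞ then F x else 0) + if apex x.1.1 x.1.2 = ∞ then F x else 0 := by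
    simp only [dd, hr]
    rfl
  rw [e]
  by_cases a : x.1.1 = ∞
  · rw [if_pos a, if_neg (a ▸ n1.symm), if_neg (a ▸ n3), add_zero, add_zero]
  by_cases b : x.1.2 = ∞
  · rw [if_neg a, if_pos b, if_neg (b ▸ n2.symm), add_zero, zero_add]
  by_cases c : apex x.1.1 x.1.2 = ∞
  · rw [if_neg a, if_neg b, if_pos c, add_zero, zero_add]
  · rw [if_neg a, if_neg b, if_neg c, h0 x a b c, add_zero, add_zero]

lemma tele (F : FP → ZMod 2) (hr : ∀ x, F (rt x) = F x)
    (h0 : ∀ x : FP, x.1.1 ≠ ∞ → x.1.2 ≠ ∞ → apex x.1.1 x.1.2 ≠ ∞ → F x = 0)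
    (s : ℤ → ZMod 2) (hs : ∀ k, F (ed k) = s (k + 1) - s k) (N : ℕ) (c d : ZMod 2)
    (hN : ∀ k : ℤ, ((N : ℤ) ≤ k → s k = d) ∧ (k ≤ -N → s k = c)) : ∑ᶠ x, F x = d - c := by
  have sup : Function.support (fun x : FP => if x.1.1 = ∞ then F x else 0) ⊆
      ((Finset.range (2 * N)).image fun i : ℕ => ed (i - N) : Finset FP) := by
    intro x hx
    have a : x.1.1 = ∞ := by
      by_contra a
      exact hx (if_neg a)
    obtain ⟨k, rfl⟩ := ex_ed a
    have b : s (k + 1) - s k ≠ 0 := fun t => hx ((if_pos a).trans ((hs k).trans t))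
    have k1 : k < N := lt_of_not_ge fun t => b (by
      rw [(hN k).1 t, (hN (k + 1)).1 (by omega), sub_self])
    have k2 : -(N : ℤ) ≤ k := le_of_not_gt fun t => b (by
      rw [(hN k).2 t.le, (hN (k + 1)).2 (by omega), sub_self])
    refine Finset.mem_coe.2 (Finset.mem_image.2 ⟨(k + N).toNat, Finset.mem_range.2 (by omega), ?_⟩)
    rw [Int.toNat_of_nonneg (by omega), add_sub_cancel_right]
  rw [star F hr h0, sum_dd ((Finset.finite_toSet _).subset sup),
    finsum_eq_sum_of_support_subset _ sup,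
    Finset.sum_image fun i _ j _ t => by have := ed_inj t; omega]
  have e : ∀ i : ℕ, (if (ed (i - N)).1.1 = ∞ then F (ed (i - N)) else 0) =
      s (((i + 1 : ℕ) : ℤ) - N) - s (i - N) := fun i => by
    rw [if_pos (show (ed (i - N)).1.1 = ∞ from rfl), hs]
    congr 2
    push_cast
    ring
  simp only [e]
  rw [Finset.sum_range_sub (fun i : ℕ => s (i - N)), (hN _).1 (by omega), (hN _).2 (by omega)]

end LINK

open LINK

theorem stNEAR : St_NEAR := fun Y M L m h ξ r hr a b ha hb hD pa pb o =>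
  ⟨near1 h ξ hr hb hD pa o, near1 h ξ hr ha ((ab_symm a b).trans_le hD) pb (by
    rw [← Complex.conj_re]
    simpa [mul_comm] using o)⟩

theorem stLINK (hO : St_OM) (hN : St_NEAR) : St_LINK := by
  intro Y M L m h ξ r hr far
  set F : FP → ZMod 2 := fun x =>
    ww (fr ξ r (Y x.1.1)) (fr ξ r (Y x.1.2)) (fr ξ r (Y (apex x.1.1 x.1.2))) with hF
  have rot : ∀ x, F (rt x) = F x := fun x => by
    simp only [hF, rt, apex_rot x.2]
    rw [(hO.1 _ _ _).2.1, (hO.1 _ _ _).1]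
  have h0 : ∀ x : FP, x.1.1 ≠ ∞ → x.1.2 ≠ ∞ → apex x.1.1 x.1.2 ≠ ∞ → F x = 0 := by
    intro x a b c
    by_contra t
    obtain ⟨p1, p2, p3, o⟩ := hO.2.2 _ _ _ t
    have k : ∀ u v : P, u ≠ ∞ → v ≠ ∞ → |D u v| = 1 → hp (fr ξ r (Y u)) → hp (fr ξ r (Y v)) →
        ¬ (zt (fr ξ r (Y u)) * conj (zt (fr ξ r (Y v)))).re ≤ 0 := fun u v hu hv e pu pv o => by
      have := hN Y M L m h ξ r hr u v hu hv (e.trans_le h.one) pu pv o
      exact (far u v e).elim this.1.not_gt this.2.not_gt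
    rcases o with o | o | o
    · exact k _ _ a b x.2 p1 p2 o
    · exact k _ _ b c (apex_r x.2) p2 p3 o
    · exact k _ _ a c ((ab_symm _ _).trans (apex_l x.2)) p1 p3 o
  have nz : ∀ k : ℤ, Y (pz k) 1 ≠ 0 := fun k t => by
    have := low1 h (b := pz k) (coe_ne_infty _)
    rw [t, norm_zero] at this
    linarith
  have ps : ∀ k : ℤ, 0 < ‖Y (pz k) 1‖ ^ 2 := fun k => pow_pos (norm_pos_iff.2 (nz k)) 2
  have z0 : zt (fr ξ r (Y ∞)) = 0 := by simp [zt, fr, h.inf]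
  have pi : hp (fr ξ r (Y ∞)) := by simpa [hp, fr, h.inf] using hr.ne'
  have im : ∀ k : ℤ, (zt (fr ξ r (Y (pz k)))).im =
      -(‖Y (pz k) 1‖ ^ 2 * (zc (Y (pz k)) - ξ).im) := fun k => by
    rw [zt_fr ξ hr (nz k), Complex.im_ofReal_mul, Complex.conj_im, mul_neg]
  have re : ∀ k : ℤ, (zt (fr ξ r (Y (pz k)))).re =
      ‖Y (pz k) 1‖ ^ 2 * (zc (Y (pz k)) - ξ).re := fun k => by
    rw [zt_fr ξ hr (nz k), Complex.re_ofReal_mul, Complex.conj_re]
  have val : (∀ k : ℤ, r ^ 2 < |(zc (Y (pz k)) - ξ).im|) → ∀ k, F (ed k) =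
      kk (zt (fr ξ r (Y (pz k)))) (zt (fr ξ r (Y (pz (k + 1))))) := fun t k => by
    have p : ∀ k : ℤ, hp (fr ξ r (Y (pz k))) := fun k =>
      hp_fr ξ hr (nz k) ((t k).trans_le (Complex.abs_im_le_norm _))
    simp only [hF, ed, apex_ed, ww]
    rw [if_pos ⟨pi, p _, p _⟩, z0, kk_zero, kk_zero, zero_add, add_zero]
  refine ⟨fun t => ?_, fun t => ?_⟩
  · have ng : ∀ k : ℤ, (zt (fr ξ r (Y (pz k)))).im < 0 := fun k => by
      rw [im, neg_lt_zero]
      exact mul_pos (ps k) ((pow_pos hr 2).trans (t k))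
    exact (tele F rot h0 (fun _ => 0) (fun k => by
      rw [val (fun k => (t k).trans_le (le_abs_self _)), kk_neg (ng _) (ng _), sub_self])
      0 0 0 fun _ => ⟨fun _ => rfl, fun _ => rfl⟩).trans (sub_self _)
  · have ng : ∀ k : ℤ, 0 < (zt (fr ξ r (Y (pz k)))).im := fun k => by
      rw [im, neg_pos]
      exact mul_neg_of_pos_of_neg (ps k) (by linarith [t k, pow_pos hr 2])
    obtain ⟨ε, hε, per⟩ := h.per
    obtain ⟨N, c, hc⟩ := ends (fun k => (zc (Y (pz k)) - ξ).re) h.ne (ε := ε.re)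
      (by rcases hε with rfl | rfl <;> simp) fun k => by
        simp only [per, Complex.sub_re, Complex.add_re]
        ring
    have s : ∀ k : ℤ, sg (zt (fr ξ r (Y (pz k)))).re = sg (zc (Y (pz k)) - ξ).re := fun k => by
      rw [re]
      exact if_congr (mul_pos_iff_of_pos_left (ps k)) rfl rfl
    exact (tele F rot h0 (fun k => sg (zc (Y (pz k)) - ξ).re) (fun k => by
      rw [val (fun k => by linarith [t k, neg_le_abs (zc (Y (pz k)) - ξ).im]),
        kk_up (ng _) (ng _), s, s]) N c (c + 1) hc).trans (add_sub_cancel_left _ _)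

end Pool.Agent.Lib.THU.GE
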