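import Pool.Agent.Lib.THU.GE.Defs
import Pool.Agent.Lib.THU.FA.BA

/-!
The model: every element of the group extends to a quasiconformal homeomorphism of the sphere.
-/

namespace Pool.Agent.Lib.THU.GE

open OnePoint Pool.Agent.Lib.THU.FA

namespace MOD

/-- orientation of a triple of cusps -/
def orr (a b c : P) : ℤ := D a b * D b c * D c a

theorem orr_smul (A : GZ) (a b c : P) :
    orr (A • a) (A • b) (A • c) = (A : Matrix (Fin 2) (Fin 2) ℤ).det * orr a b c := by
  obtain ⟨ε, hε, a1, a2⟩ := vec_smul A a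
  obtain ⟨ε', hε', b1, b2⟩ := vec_smul A b
  obtain ⟨ε'', hε'', c1, c2⟩ := vec_smul A c
  have hd := det_eq A
  rw [Matrix.det_fin_two]
  have e : orr (A • a) (A • b) (A • c) = (ε * ε) * (ε' * ε') * (ε'' * ε'') *
      (A 0 0 * A 1 1 - A 0 1 * A 1 0) ^ 3 * orr a b c := by
    simp only [orr, D, a1, a2, b1, b2, c1, c2]; ring
  rw [e]
  rcases hε with rfl | rfl <;> rcases hε' with rfl | rfl <;> rcases hε'' with rfl | rfl <;>
    rcases hd with hd | hd <;> rw [hd] <;> norm_num

theorem sign_D (p q : ℚ) : (D p q).sign = (SignType.sign (p - q) : ℤ) := by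
  have h := D_coe p q
  have h0 : (0 : ℚ) < p.den * q.den := by positivity
  rcases lt_trichotomy (p - q) 0 with e | e | e
  · rw [sign_neg e, Int.sign_eq_neg_one_of_neg]; · rfl
    rw [← Int.cast_lt (R := ℚ), h]; push_cast; nlinarith
  · rw [e] at h ⊢
    have : D p q = 0 := by exact_mod_cast h.trans (mul_zero _)
    simp [this]
  · rw [sign_pos e, Int.sign_eq_one_of_pos]; · rfl
    rw [← Int.cast_lt (R := ℚ), h]; push_cast; nlinarith

theorem sign_map (g : ℚ ≃o ℚ) (p q : P) : (D (p.map g) (q.map g)).sign = (D p q).sign := by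
  cases p using OnePoint.rec with
  | infty =>
    cases q using OnePoint.rec with
    | infty => rfl
    | coe q => simp [D_inf, Int.sign_natCast_of_ne_zero (Rat.den_nz _)]
  | coe p =>
    cases q using OnePoint.rec with
    | infty => simp [D, Int.sign_natCast_of_ne_zero (Rat.den_nz _)]
    | coe q =>
      simp only [map_some, sign_D]
      rcases lt_trichotomy p q with e | e | e
      · rw [sign_neg (sub_neg.2 e), sign_neg (sub_neg.2 (g.strictMono e))]
      · simp [e]
      · rw [sign_pos (sub_pos.2 e), sign_pos (sub_pos.2 (g.strictMono e))]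

theorem sign_orr (g : ℚ ≃o ℚ) (a b c : P) :
    (orr (a.map g) (b.map g) (c.map g)).sign = (orr a b c).sign := by
  simp only [orr, Int.sign_mul, sign_map]

theorem sign_det (A : GZ) :
    (A : Matrix (Fin 2) (Fin 2) ℤ).det.sign = (A : Matrix (Fin 2) (Fin 2) ℤ).det := by
  rw [Matrix.det_fin_two]
  rcases det_eq A with h | h <;> rw [h] <;> rfl

theorem det_eqv {A X Y : GZ} {g : ℚ ≃o ℚ}
    (h : ∀ p : P, A • ((X • p).map g : P) = Y • A • (p.map g : P)) :
    (Y : Matrix (Fin 2) (Fin 2) ℤ).det = (X : Matrix (Fin 2) (Fin 2) ℤ).det := by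
  have := congrArg Int.sign (orr_smul A ((X • (∞ : P)).map g) ((X • ((0 : ℚ) : P)).map g)
    ((X • ((1 : ℚ) : P)).map g))
  rw [h, h, h, orr_smul, orr_smul] at this
  simp only [Int.sign_mul, sign_orr, orr_smul, sign_det] at this
  have e : (orr ∞ ((0 : ℚ) : P) ((1 : ℚ) : P)).sign = 1 := by simp [orr, D]
  rw [e] at this
  have hA : (A : Matrix (Fin 2) (Fin 2) ℤ).det ≠ 0 := (Matrix.isUnits_det_units A).ne_zero
  apply mul_left_cancel₀ hA
  linarith

end MOD

theorem stMOD : St_MOD := by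
  intro G _ _ C φ
  have key : ∀ g : G, ∃ (A : GZ) (u : ℚ ≃o ℚ) (H : ℝ ≃o ℝ) (M : ℝ), 1 ≤ M ∧ QS M H ∧
      (∀ q : ℚ, H q = u q) ∧ ∀ p : P, g • p = A • (p.map u : P) := fun g =>
    φ.lat.exists_qs0 (MulAut.conjNormal g) (MulAction.toPerm g) fun x p => by
      simp [← φ.act, mul_smul]
  refine ⟨⟨φ.σ, φ.lat, φ.act, fun g x y h => ?_, fun g => ?_⟩⟩
  · obtain ⟨A, u, -, -, -, -, -, e⟩ := key g
    refine MOD.det_eqv (A := A) (g := u) fun p => ?_
    rw [← e, ← e, ← φ.act, ← φ.act, h]; simp [mul_smul]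
  · obtain ⟨A, u, H, M, h1, h2, h3, e⟩ := key g
    obtain ⟨f, K, k1, k2, k3⟩ := stBA H M h1 h2
    refine ⟨A, f, K, k2, k3, fun p => ?_⟩
    have e1 : AN.ext f (AN.emb p) = AN.emb (p.map u) := by
      cases p using OnePoint.rec with
      | infty => rfl
      | coe q =>
        have := k1 q
        rw [h3] at this
        simpa [AN.ext, AN.emb] using this
    rw [e, e1, smul_def]
    refine (OnePoint.map_smul (Rat.castHom ℂ) _ _).trans ?_
    congr 1

end Pool.Agent.Lib.THU.GE
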