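import Pool.Agent.Lib.THU.GE.Defs

/-! The cocycle property of the crossing parity. -/

set_option autoImplicit false

namespace Pool.Agent.Lib.THU.GE

open scoped Classical ComplexConjugate
open Pool.Agent.Lib.THU28 (V2 om)

namespace OM

lemma kk_comm (p q : ℂ) : kk p q = kk q p := by
  unfold kk
  exact if_congr or_comm rfl rfl

lemma kk_same {p q : ℂ} (h : 0 < p.re ↔ 0 < q.re) : kk p q = 0 :=
  if_neg fun e => e.elim (fun e => (h.1 e.1).not_ge e.2.1) fun e => (h.2 e.1).not_ge e.2.1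

lemma real_key {a b c d : ℝ} (ha : 0 < a) (hc : c ≤ 0) (h : 0 < a * c + b * d) :
    (0 < a * d - b * c ↔ 0 < b) ∧ (0 < b ↔ 0 < d) := by
  have h1 : 0 < b * d := by nlinarith
  rcases pos_and_pos_or_neg_and_neg_of_mul_pos h1 with ⟨hb, hd⟩ | ⟨hb, hd⟩
  · exact ⟨iff_of_true (by nlinarith [mul_pos ha hd]) hb, iff_of_true hb hd⟩
  · exact ⟨iff_of_false (not_lt.2 (by nlinarith [mul_pos ha (neg_pos.2 hd)])) hb.not_gt,
      iff_of_false hb.not_gt hd.not_gt⟩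

/-- the indicator of the upper half plane -/
noncomputable def up (p : ℂ) : ZMod 2 := if 0 < p.im then 1 else 0

lemma kk_pos {p q : ℂ} (h : 0 < (p * conj q).re) (hp : 0 < p.re) (hq : ¬ 0 < q.re) :
    kk p q = up p ∧ kk p q = up q := by
  have k := real_key (b := p.im) (d := q.im) hp (not_lt.1 hq) (by simpa using h)
  have e : (conj p * q).im = p.re * q.im - p.im * q.re := by
    simp [sub_eq_add_neg]
  have h1 : kk p q = up p := if_congr (by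
    rw [e, k.1]
    exact ⟨fun e => e.elim (fun e => e.2.2) fun e => absurd e.1 hq,
      fun e => Or.inl ⟨hp, not_lt.1 hq, e⟩⟩) rfl rfl
  exact ⟨h1, h1.trans (if_congr k.2 rfl rfl)⟩

lemma kk_diff {p q : ℂ} (h : 0 < (p * conj q).re) (hn : ¬ (0 < p.re ↔ 0 < q.re)) :
    kk p q = up p ∧ kk p q = up q := by
  by_cases hp : 0 < p.re
  · exact kk_pos h hp fun hq => hn (iff_of_true hp hq)
  · have hq : 0 < q.re := by
      by_contra hq
      exact hn (iff_of_false hp hq)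
    rw [kk_comm]
    exact (kk_pos (by simpa [mul_comm] using h) hq hp).symm

lemma kk_sum {p q w : ℂ} (h1 : 0 < (p * conj q).re) (h2 : 0 < (q * conj w).re)
    (h3 : 0 < (p * conj w).re) : kk p q + kk q w + kk p w = 0 := by
  by_cases a : (0 < p.re ↔ 0 < q.re) <;> by_cases b : (0 < q.re ↔ 0 < w.re)
  · rw [kk_same a, kk_same b, kk_same (a.trans b), add_zero, add_zero]
  · rw [kk_same a, (kk_diff h2 b).2, (kk_diff h3 fun e => b (a.symm.trans e)).2, zero_add,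
      CharTwo.add_self_eq_zero]
  · rw [kk_same b, (kk_diff h1 a).1, (kk_diff h3 fun e => a (e.trans b.symm)).1, add_zero,
      CharTwo.add_self_eq_zero]
  · rw [(kk_diff h1 a).2, (kk_diff h2 b).1, kk_same (by tauto), add_zero,
      CharTwo.add_self_eq_zero]

lemma ww12 (x y w : V2) : ww x y w = ww y x w := by
  unfold ww
  refine if_congr (by tauto) ?_ rfl
  rw [kk_comm (zt x) (zt y)]
  ring

lemma ww23 (x y w : V2) : ww x y w = ww x w y := by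
  unfold ww
  refine if_congr (by tauto) ?_ rfl
  rw [kk_comm (zt y) (zt w)]
  ring

lemma ww_self (x y : V2) : ww x x y = 0 := by
  unfold ww
  split_ifs
  · rw [kk_same Iff.rfl, zero_add, CharTwo.add_self_eq_zero]
  · rfl

lemma third (x y w : V2) (h : ww x y w ≠ 0) : hp x ∧ hp y ∧ hp w ∧
    ((zt x * conj (zt y)).re ≤ 0 ∨ (zt y * conj (zt w)).re ≤ 0 ∨
      (zt x * conj (zt w)).re ≤ 0) := by
  unfold ww at h
  split_ifs at h with H
  · refine ⟨H.1, H.2.1, H.2.2, ?_⟩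
    by_contra hn
    push Not at hn
    exact h (kk_sum hn.1 hn.2.1 hn.2.2)
  · exact absurd rfl h

lemma om_ge {x y : V2} (h : (zt x * conj (zt y)).re ≤ 0) : ‖x 0‖ * ‖y 1‖ ≤ ‖om x y‖ := by
  have e : (x 0 * y 1 * conj (x 1 * y 0)).re = (zt x * conj (zt y)).re := by
    simp [zt]
    ring
  have h1 := Complex.normSq_sub (x 0 * y 1) (x 1 * y 0)
  rw [e] at h1
  rw [← norm_mul, ← sq_le_sq₀ (norm_nonneg _) (norm_nonneg _), Complex.sq_norm, Complex.sq_norm]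
  unfold om
  linarith [Complex.normSq_nonneg (x 1 * y 0)]

lemma le_coord {R : ℝ} {x : V2} (h : R ≤ ‖x‖) {i : Fin 2} (hi : ∀ j, ‖x j‖ ≤ ‖x i‖) :
    R ≤ ‖x i‖ := h.trans ((pi_norm_le_iff_of_nonneg (norm_nonneg _)).2 hi)

lemma le0 {R : ℝ} {x : V2} (h : R ≤ ‖x‖) (hx : hp x) : R ≤ ‖x 0‖ :=
  le_coord h (Fin.forall_fin_two.2 ⟨le_rfl, le_of_lt hx⟩)

lemma le1 {R : ℝ} {x : V2} (h : R ≤ ‖x‖) (hx : ¬ hp x) : R ≤ ‖x 1‖ :=
  le_coord h (Fin.forall_fin_two.2 ⟨not_lt.1 hx, le_rfl⟩)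

lemma big {L R : ℝ} {x v : V2} (hR : 0 < R) (hL : 8 * L ≤ R ^ 2) (h1 : R ≤ ‖x‖) (h2 : R ≤ ‖v‖)
    (hx : hp x) (hv : ¬ hp v) (h : ‖om x v‖ ≤ L) : R / 2 ≤ ‖x 1‖ := by
  have a := le0 h1 hx
  have b := le1 h2 hv
  have c : ‖v 0‖ ≤ ‖v 1‖ := not_lt.1 hv
  have d : ‖x 0‖ * ‖v 1‖ - ‖x 1‖ * ‖v 0‖ ≤ L := by
    rw [← norm_mul, ← norm_mul]
    exact (norm_sub_norm_le _ _).trans h
  by_contra hn
  have e := not_le.1 hn
  nlinarith [mul_le_mul_of_nonneg_left c (norm_nonneg (x 1)), mul_le_mul_of_nonneg_right a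
    (norm_nonneg (v 1)), mul_le_mul_of_nonneg_right e.le (norm_nonneg (v 1)),
    mul_le_mul_of_nonneg_left b hR.le, mul_pos hR hR]

lemma acute {L R : ℝ} {x y : V2} (hR : 0 < R) (hL : 8 * L ≤ R ^ 2) (h1 : R ≤ ‖x 0‖)
    (h2 : R / 2 ≤ ‖y 1‖) (h : ‖om x y‖ ≤ L) : 0 < (zt x * conj (zt y)).re := by
  by_contra hn
  have a := (om_ge (not_lt.1 hn)).trans h
  nlinarith [mul_le_mul h1 h2 (half_pos hR).le (norm_nonneg _), mul_pos hR hR]

lemma vanish {L R : ℝ} {x y w v : V2} (hR : 0 < R) (hL : 8 * L ≤ R ^ 2) (hx : R ≤ ‖x‖)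
    (hy : R ≤ ‖y‖) (hw : R ≤ ‖w‖) (hv : R ≤ ‖v‖) (xy : ‖om x y‖ ≤ L) (xw : ‖om x w‖ ≤ L)
    (yw : ‖om y w‖ ≤ L) (yv : ‖om y v‖ ≤ L) (wv : ‖om w v‖ ≤ L) (h : ¬ hp v) :
    ww x y w = 0 := by
  by_contra hn
  obtain ⟨a, b, c, d⟩ := third x y w hn
  have b' := big hR hL hy hv b h yv
  have c' := big hR hL hw hv c h wv
  rcases d with d | d | d
  exacts [(acute hR hL (le0 hx a) b' xy).not_ge d, (acute hR hL (le0 hy b) c' yw).not_ge d,
    (acute hR hL (le0 hx a) c' xw).not_ge d]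

lemma zero3 {x y w : V2} (h : ¬ hp x ∨ ¬ hp y ∨ ¬ hp w) : ww x y w = 0 :=
  if_neg (by tauto)

lemma norm_swap (x y : V2) : ‖om y x‖ = ‖om x y‖ := by
  rw [← norm_neg]
  congr 1
  unfold om
  ring

end OM

open OM in
theorem stOM : St_OM := by
  refine ⟨fun x y w => ⟨ww12 x y w, ww23 x y w, ww_self x y⟩, ?_, third⟩
  intro L R x y w v hR hL hx hy hw hv xy xw xv yw yv wv
  have sw : ∀ {a b : V2}, ‖om a b‖ ≤ L → ‖om b a‖ ≤ L := fun h => (norm_swap _ _).trans_le h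
  by_cases a : hp x
  swap
  · rw [zero3 (Or.inl a), zero3 (Or.inl a), zero3 (Or.inl a),
      vanish hR hL hy hw hv hx yw yv wv (sw xw) (sw xv) a]
    simp
  by_cases b : hp y
  swap
  · rw [zero3 (Or.inr (Or.inl b)), zero3 (Or.inr (Or.inl b)), zero3 (Or.inl b),
      vanish hR hL hx hw hv hy xw xv wv (sw yw) (sw yv) b]
    simp
  by_cases c : hp w
  swap
  · rw [zero3 (Or.inr (Or.inr c)), zero3 (Or.inr (Or.inl c)), zero3 (Or.inr (Or.inl c)),
      vanish hR hL hx hy hv hw xy xv yv yw (sw wv) c]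
    simp
  by_cases d : hp v
  swap
  · rw [zero3 (Or.inr (Or.inr d)), zero3 (Or.inr (Or.inr d)), zero3 (Or.inr (Or.inr d)),
      vanish hR hL hx hy hw hv xy xw yw yv wv d]
    simp
  unfold ww
  rw [if_pos ⟨a, b, c⟩, if_pos ⟨a, b, d⟩, if_pos ⟨a, c, d⟩, if_pos ⟨b, c, d⟩]
  generalize kk (zt x) (zt y) = k1, kk (zt y) (zt w) = k2, kk (zt x) (zt w) = k3,
    kk (zt y) (zt v) = k4, kk (zt x) (zt v) = k5, kk (zt w) (zt v) = k6
  have h2 : (2 : ZMod 2) = 0 := rfl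
  linear_combination (k1 + k2 + k3 + k4 + k5 + k6) * h2

end Pool.Agent.Lib.THU.GE
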