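import Pool.Agent.Lib.THU.GE.Defs

/-!
Thick points of the limit of the level shifting maps.
-/

set_option autoImplicit false

namespace Pool.Agent.Lib.THU.GE

open Matrix Filter Topology
open scoped Classical
open Pool.Agent.Lib.THU28 (V2 M2 om tv)
open Pool.Agent.Lib.THU.AN (CRE Thick)

namespace THK

/-- the limit vectors -/
def LV {Q : Type} (U : Ultrafilter ℕ) (W : ℕ → Q → V2) : Set V2 :=
  {v | ∃ a : ℕ → Q, Tendsto (fun n => W n (a n)) U (𝓝 v)}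

lemma tend_apply {U : Filter ℕ} {x : ℕ → V2} {v : V2} (h : Tendsto x U (𝓝 v)) (k : Fin 2) :
    Tendsto (fun n => x n k) U (𝓝 (v k)) := ((continuous_apply k).tendsto v).comp h

lemma tend_om {U : Filter ℕ} {x y : ℕ → V2} {v w : V2} (hx : Tendsto x U (𝓝 v))
    (hy : Tendsto y U (𝓝 w)) : Tendsto (fun n => om (x n) (y n)) U (𝓝 (om v w)) :=
  ((tend_apply hx 0).mul (tend_apply hy 1)).sub ((tend_apply hx 1).mul (tend_apply hy 0))

variable {Q : Type} {U : Ultrafilter ℕ} {W : ℕ → Q → V2} {i : ℕ → Q} {R Λ : ℝ}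

lemma sep (low : ∀ n a b, a ≠ b → 1 / 9 ≤ ‖om (W n a) (W n b)‖) {v w : V2} (hv : v ∈ LV U W)
    (hw : w ∈ LV U W) (ne : v ≠ w) : 1 / 9 ≤ ‖om v w‖ := by
  obtain ⟨a, ha⟩ := hv
  obtain ⟨b, hb⟩ := hw
  have e : ∀ᶠ n in (U : Filter ℕ), a n ≠ b n := by
    rw [Ultrafilter.eventually_not]
    intro e
    exact ne (tendsto_nhds_unique (ha.congr' (e.mono fun n hn => by simp only [hn])) hb)
  exact ge_of_tendsto (tend_om ha hb).norm (e.mono fun n hn => low n _ _ hn)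

lemma cnt (hP : St_PACK) (low : ∀ n a b, a ≠ b → 1 / 9 ≤ ‖om (W n a) (W n b)‖) :
    (LV U W).Countable := by
  have e : LV U W = ⋃ m : ℕ, {v | v ∈ LV U W ∧ ‖v‖ ≤ m} := by
    ext v
    simp only [Set.mem_iUnion, Set.mem_ofPred_eq]
    exact ⟨fun h => ⟨⌈‖v‖⌉₊, h, Nat.le_ceil _⟩, fun ⟨_, h, _⟩ => h⟩
  rw [e]
  refine Set.countable_iUnion fun m => Set.Finite.countable ?_
  obtain ⟨N, hN⟩ := hP (1 / 9) m (by norm_num)
  by_contra hi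
  obtain ⟨S, hS, hc⟩ := Set.Infinite.exists_subset_card_eq hi (N + 1)
  have := hN V2 id S (fun a ha b hb ab => sep low (hS ha).1 (hS hb).1 ab) fun a ha => (hS ha).2
  omega

/-- the inverse of the frame -/
noncomputable def gr (z : ℂ) (r : ℝ) (w : V2) : V2 := ![r * w 0 + z * (w 1 / r), w 1 / r]

lemma gr_fr (z : ℂ) {r : ℝ} (hr : 0 < r) (x : V2) : gr z r (fr z r x) = x := by
  have : (r : ℂ) ≠ 0 := by exact_mod_cast hr.ne'
  ext k; fin_cases k <;> simp [gr, fr] <;> field_simp <;> ring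

lemma fr_gr (z : ℂ) {r : ℝ} (hr : 0 < r) (x : V2) : fr z r (gr z r x) = x := by
  have : (r : ℂ) ≠ 0 := by exact_mod_cast hr.ne'
  ext k; fin_cases k <;> simp [gr, fr] <;> field_simp

lemma cont_gr (z : ℂ) (r : ℝ) : Continuous (gr z r) := by
  refine continuous_pi fun k => ?_
  fin_cases k <;> simp [gr] <;> fun_prop

lemma cover (i : ℕ → Q)
    (cov : ∀ (ξ : ℂ) (r : ℝ), 0 < r → ∀ᶠ n in (U : Filter ℕ), ∃ a, ‖fr ξ r (W n a)‖ ≤ R)
    (ξ : ℂ) {r : ℝ} (hr : 0 < r) : ∃ v ∈ LV U W, ‖fr ξ r v‖ ≤ R := by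
  let a : ℕ → Q := fun n => if h : ∃ a, ‖fr ξ r (W n a)‖ ≤ R then h.choose else i n
  have ha : ∀ᶠ n in (U : Filter ℕ), fr ξ r (W n (a n)) ∈ Metric.closedBall (0 : V2) R :=
    (cov ξ r hr).mono fun n hn => by
      simp only [a, dif_pos hn, mem_closedBall_zero_iff]
      exact hn.choose_spec
  obtain ⟨w, hw, ht⟩ := (isCompact_closedBall (0 : V2) R).ultrafilter_le_nhds
    (U.map fun n => fr ξ r (W n (a n))) (by
      rw [Ultrafilter.coe_map, le_principal_iff]; exact ha)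
  refine ⟨gr ξ r w, ⟨a, ?_⟩, ?_⟩
  · have ht' : Tendsto (fun n => fr ξ r (W n (a n))) U (𝓝 w) := ht
    have := ((cont_gr ξ r).tendsto w).comp ht'
    refine this.congr fun n => ?_
    simp only [Function.comp, gr_fr ξ hr]
  · rw [fr_gr ξ hr]; exact mem_closedBall_zero_iff.1 hw

lemma low_one (low : ∀ n a b, a ≠ b → 1 / 9 ≤ ‖om (W n a) (W n b)‖) (hi : ∀ n, W n (i n) 1 = 0)
    (hL : ∀ n, 1 ≤ Λ * ‖W n (i n) 0‖ ∧ ‖W n (i n) 0‖ ≤ Λ) {n : ℕ} {a : Q} (ha : a ≠ i n) :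
    1 / 9 ≤ Λ * ‖W n a 1‖ := by
  have h := low n a (i n) ha
  simp only [om, hi n, mul_zero, zero_sub, norm_neg, norm_mul] at h
  nlinarith [(hL n).2, norm_nonneg (W n a 1)]

lemma nz (low : ∀ n a b, a ≠ b → 1 / 9 ≤ ‖om (W n a) (W n b)‖) (hi : ∀ n, W n (i n) 1 = 0)
    (hL : ∀ n, 1 ≤ Λ * ‖W n (i n) 0‖ ∧ ‖W n (i n) 0‖ ≤ Λ) {v : V2} (hv : v ∈ LV U W) {ξ : ℂ}
    (hξ : ξ ∉ zc '' LV U W) : v 0 - ξ * v 1 ≠ 0 := by
  intro e
  by_cases h1 : v 1 = 0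
  · have h0 : v 0 = 0 := by simpa [h1] using e
    obtain ⟨a, ha⟩ := hv
    rcases U.em (fun n => a n = i n) with h | h
    · have : 1 ≤ Λ * ‖v 0‖ := ge_of_tendsto ((tend_apply ha 0).norm.const_mul Λ)
        (h.mono fun n hn => by simp only [hn]; exact (hL n).1)
      norm_num [h0] at this
    · have : 1 / 9 ≤ Λ * ‖v 1‖ := ge_of_tendsto ((tend_apply ha 1).norm.const_mul Λ)
        (h.mono fun n hn => low_one low hi hL hn)
      norm_num [h1] at this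
  · refine hξ ⟨v, hv, ?_⟩
    rw [zc, div_eq_iff h1]
    linear_combination e

lemma om_fr (z : ℂ) {r : ℝ} (hr : 0 < r) (x y : V2) : om (fr z r x) (fr z r y) = om x y := by
  have : (r : ℂ) ≠ 0 := by exact_mod_cast hr.ne'
  simp [om, fr]; field_simp; ring

lemma norm_fr0 (z : ℂ) {r : ℝ} (hr : 0 < r) (x : V2) :
    ‖fr z r x 0‖ = ‖x 0 - z * x 1‖ / r := by
  simp [fr, abs_of_pos hr]

lemma norm_fr1 (z : ℂ) {r : ℝ} (hr : 0 < r) (x : V2) : ‖fr z r x 1‖ = r * ‖x 1‖ := by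
  simp [fr, abs_of_pos hr]

lemma norm_le2 {x : V2} {c : ℝ} (h0 : ‖x 0‖ ≤ c) (h1 : ‖x 1‖ ≤ c) : ‖x‖ ≤ c :=
  (pi_norm_le_iff_of_nonneg ((norm_nonneg _).trans h0)).2 fun k => by fin_cases k <;> assumption

lemma pick (low : ∀ n a b, a ≠ b → 1 / 9 ≤ ‖om (W n a) (W n b)‖) (hi : ∀ n, W n (i n) 1 = 0)
    (hL : ∀ n, 1 ≤ Λ * ‖W n (i n) 0‖ ∧ ‖W n (i n) 0‖ ≤ Λ)
    (cov : ∀ (ξ : ℂ) (r : ℝ), 0 < r → ∀ᶠ n in (U : Filter ℕ), ∃ a, ‖fr ξ r (W n a)‖ ≤ R)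
    {ξ : ℂ} (hξ : ξ ∉ zc '' LV U W) {r₀ : ℝ} (h0 : 0 < r₀) :
    ∃ r : ℝ, 0 < r ∧ r ^ 2 < r₀ ∧ ∃ v ∈ LV U W, ‖fr ξ r v‖ ≤ 2 * R ∧
      1 ≤ 27 * R * ‖fr ξ r v 1‖ := by
  obtain ⟨r₁, p1, p2, p3⟩ : ∃ r₁ : ℝ, 0 < r₁ ∧ r₁ ≤ 1 ∧ r₁ ≤ r₀ :=
    ⟨min 1 r₀, lt_min one_pos h0, min_le_left _ _, min_le_right _ _⟩
  obtain ⟨v, hv, hb⟩ := cover i cov ξ p1
  have e0 : 0 < ‖v 0 - ξ * v 1‖ := norm_pos_iff.2 (nz low hi hL hv hξ)
  have b0 := (norm_le_pi_norm _ 0).trans hb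
  have b1 := (norm_le_pi_norm _ 1).trans hb
  rw [norm_fr0 ξ p1, div_le_iff₀ p1] at b0
  rw [norm_fr1 ξ p1] at b1
  have hR : 0 < R := by
    by_contra h
    nlinarith
  obtain ⟨r, hr⟩ : ∃ r : ℝ, r = ‖v 0 - ξ * v 1‖ / (2 * R) := ⟨_, rfl⟩
  have rp : 0 < r := by rw [hr]; positivity
  have rl : r ≤ r₁ / 2 := by rw [hr, div_le_iff₀ (by positivity)]; nlinarith
  have w0 : ‖fr ξ r v 0‖ = 2 * R := by
    rw [norm_fr0 ξ rp, hr]; field_simp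
  have w1 : ‖fr ξ r v 1‖ ≤ R := by
    rw [norm_fr1 ξ rp]; nlinarith [norm_nonneg (v 1)]
  obtain ⟨v', hv', hb'⟩ := cover i cov ξ rp
  have c0 := (norm_le_pi_norm _ 0).trans hb'
  have ne : v ≠ v' := by
    rintro rfl
    linarith
  have s := sep low hv hv' ne
  rw [← om_fr ξ rp] at s
  have s' : 1 / 9 ≤ 2 * R * ‖fr ξ r v' 1‖ + ‖fr ξ r v 1‖ * R := by
    refine s.trans ((norm_sub_le _ _).trans ?_)
    rw [norm_mul, norm_mul, w0]
    gcongr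
  refine ⟨r, rp, by nlinarith, ?_⟩
  by_cases h : 1 ≤ 27 * R * ‖fr ξ r v 1‖
  · exact ⟨v, hv, norm_le2 w0.le (by linarith), h⟩
  · exact ⟨v', hv', by linarith, by nlinarith⟩

lemma diag (hU : (U : Filter ℕ) ≤ atTop) (i : ℕ → Q) (p : ℕ → Q → Prop) (f : ℕ → Q → ℝ)
    (h : ∀ ε > (0 : ℝ), ∀ᶠ n in (U : Filter ℕ), ∃ q, p n q ∧ f n q < ε) :
    ∃ q : ℕ → Q, ∀ ε > (0 : ℝ), ∀ᶠ n in (U : Filter ℕ), p n (q n) ∧ f n (q n) < ε := by
  let A : ℕ → ℕ → Prop := fun n k => ∃ q, p n q ∧ f n q < 1 / ((k : ℝ) + 1)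
  let κ : ℕ → ℕ := fun n => Nat.findGreatest (A n) n
  let q : ℕ → Q := fun n => if h : A n (κ n) then h.choose else i n
  refine ⟨q, fun ε hε => ?_⟩
  obtain ⟨k, hk⟩ := exists_nat_one_div_lt hε
  filter_upwards [h (1 / ((k : ℝ) + 1)) (by positivity), hU (eventually_ge_atTop k)] with n h1 h2
  have h2' : k ≤ n := h2
  have a1 : A n (κ n) := Nat.findGreatest_spec (P := A n) h2' h1
  have a2 : k ≤ κ n := Nat.le_findGreatest (P := A n) h2' h1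
  have a3 := a1.choose_spec
  simp only [q, dif_pos a1]
  refine ⟨a3.1, a3.2.trans_le (le_trans ?_ hk.le)⟩
  have : (k : ℝ) ≤ κ n := by exact_mod_cast a2
  gcongr

lemma dens (hU : (U : Filter ℕ) ≤ atTop)
    (low : ∀ n a b, a ≠ b → 1 / 9 ≤ ‖om (W n a) (W n b)‖) (hi : ∀ n, W n (i n) 1 = 0)
    (hL : ∀ n, 1 ≤ Λ * ‖W n (i n) 0‖ ∧ ‖W n (i n) 0‖ ≤ Λ)
    (cov : ∀ (ξ : ℂ) (r : ℝ), 0 < r → ∀ᶠ n in (U : Filter ℕ), ∃ a, ‖fr ξ r (W n a)‖ ≤ R)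
    (y : ℂ) : ∃ q : ℕ → Q, (∀ᶠ n in (U : Filter ℕ), q n ≠ i n) ∧
      Tendsto (fun n => zc (W n (q n))) U (𝓝 y) := by
  have hΛ : 0 < Λ := by
    by_contra h
    nlinarith [(hL 0).1, norm_nonneg (W 0 (i 0) 0)]
  obtain ⟨q, hq⟩ := diag hU i (fun n q => q ≠ i n) (fun n q => ‖zc (W n q) - y‖) (by
    intro ε hε
    obtain ⟨δ, d0, d1, d2⟩ : ∃ δ : ℝ, 0 < δ ∧ δ ≤ 1 ∧ δ ≤ ε :=
      ⟨min 1 ε, lt_min one_pos hε, min_le_left _ _, min_le_right _ _⟩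
    obtain ⟨r, hr⟩ : ∃ r : ℝ, r = δ / (10 * Λ * (|R| + 1)) := ⟨_, rfl⟩
    have rp : 0 < r := by rw [hr]; positivity
    have k1 : Λ * (R * r) ≤ δ / 10 := by
      have : r * (10 * Λ * (|R| + 1)) = δ := by rw [hr]; field_simp
      nlinarith [le_abs_self R, mul_pos hΛ rp]
    filter_upwards [cov y r rp] with n ⟨a, ha⟩
    have b0 := (norm_le_pi_norm _ 0).trans ha
    rw [norm_fr0 y rp, div_le_iff₀ rp] at b0
    have ne : a ≠ i n := by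
      rintro rfl
      rw [hi n, mul_zero, sub_zero] at b0
      nlinarith [(hL n).1]
    have l := low_one low hi hL ne
    have p1 : 0 < ‖W n a 1‖ := by
      by_contra h
      nlinarith [norm_nonneg (W n a 1)]
    have n1 : W n a 1 ≠ 0 := norm_pos_iff.1 p1
    refine ⟨a, ne, ?_⟩
    have e : zc (W n a) - y = (W n a 0 - y * W n a 1) / W n a 1 := by
      rw [zc]; field_simp
    show ‖zc (W n a) - y‖ < ε
    rw [e, norm_div, div_lt_iff₀ p1]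
    have k2 : Λ * ‖W n a 0 - y * W n a 1‖ ≤ δ / 10 := by nlinarith
    have k3 : δ / 9 ≤ Λ * (ε * ‖W n a 1‖) := by nlinarith [mul_pos hΛ p1]
    exact lt_of_mul_lt_mul_left (by linarith) hΛ.le)
  refine ⟨q, (hq 1 one_pos).mono fun n hn => hn.1, ?_⟩
  rw [Metric.tendsto_nhds]
  intro ε hε
  exact (hq ε hε).mono fun n hn => by rw [dist_eq_norm]; exact hn.2

lemma image {c : Q → Q → Q} (low : ∀ n a b, a ≠ b → 1 / 9 ≤ ‖om (W n a) (W n b)‖)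
    (hi : ∀ n, W n (i n) 1 = 0) (hL : ∀ n, 1 ≤ Λ * ‖W n (i n) 0‖ ∧ ‖W n (i n) 0‖ ≤ Λ)
    (ht : ∀ n a q, ∃ s : ℂ, tv (W n a) 1 *ᵥ W n q = s • W n (c a q))
    {a q : ℕ → Q} {v : V2} {y : ℂ} (ha : Tendsto (fun n => W n (a n)) U (𝓝 v))
    (hq : ∀ᶠ n in (U : Filter ℕ), q n ≠ i n) (hy : Tendsto (fun n => zc (W n (q n))) U (𝓝 y))
    (hd : 1 + (v 0 - v 1 * y) * v 1 ≠ 0) :
    (∀ᶠ n in (U : Filter ℕ), c (a n) (q n) ≠ i n) ∧
      Tendsto (fun n => zc (W n (c (a n) (q n)))) U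
        (𝓝 ((y + (v 0 - v 1 * y) * v 0) / (1 + (v 0 - v 1 * y) * v 1))) := by
  have t0 := tend_apply ha 0
  have t1 := tend_apply ha 1
  have tm := t0.sub (t1.mul hy)
  have T0 := hy.add (tm.mul t0)
  have T1 := (tm.mul t1).const_add 1
  have key : ∀ᶠ n in (U : Filter ℕ), c (a n) (q n) ≠ i n ∧
      (zc (W n (q n)) + (W n (a n) 0 - W n (a n) 1 * zc (W n (q n))) * W n (a n) 0) /
        (1 + (W n (a n) 0 - W n (a n) 1 * zc (W n (q n))) * W n (a n) 1) =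
        zc (W n (c (a n) (q n))) := by
    filter_upwards [hq, T1.eventually_ne hd] with n h1 h2
    have l := low_one low hi hL h1
    have n1 : W n (q n) 1 ≠ 0 := by
      intro e
      norm_num [e] at l
    obtain ⟨s, hs⟩ := ht n (a n) (q n)
    rw [THU28.tv_mulVec] at hs
    have e0 := congrFun hs 0
    have e1 := congrFun hs 1
    simp only [om, Pi.add_apply, Pi.smul_apply, smul_eq_mul, one_mul] at e0 e1
    have z : W n (q n) 0 = zc (W n (q n)) * W n (q n) 1 := by rw [zc]; field_simp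
    generalize zc (W n (q n)) = ζ at z h2 ⊢
    have f0 : W n (q n) 1 * (ζ + (W n (a n) 0 - W n (a n) 1 * ζ) * W n (a n) 0) =
        s * W n (c (a n) (q n)) 0 := by
      rw [← e0, z]; ring
    have f1 : W n (q n) 1 * (1 + (W n (a n) 0 - W n (a n) 1 * ζ) * W n (a n) 1) =
        s * W n (c (a n) (q n)) 1 := by
      rw [← e1, z]; ring
    have g1 : s * W n (c (a n) (q n)) 1 ≠ 0 := f1 ▸ mul_ne_zero n1 h2
    have g2 := right_ne_zero_of_mul g1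
    refine ⟨fun e => g2 (by rw [e]; exact hi n), ?_⟩
    rw [zc, div_eq_div_iff h2 g2]
    refine mul_left_cancel₀ n1 ?_
    linear_combination W n (c (a n) (q n)) 1 * f0 - W n (c (a n) (q n)) 0 * f1
  exact ⟨key.mono fun n hn => hn.1, (T0.div T1 hd).congr' (key.mono fun n hn => hn.2)⟩

lemma cre_lim {x y : ℕ → Fin 4 → ℂ} {X Y : Fin 4 → ℂ}
    (hx : ∀ k, Tendsto (fun n => x n k) U (𝓝 (X k))) (hy : ∀ k, Tendsto (fun n => y n k) U (𝓝 (Y k)))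
    (h : ∀ᶠ n in (U : Filter ℕ), CRE (x n) (y n)) : CRE X Y :=
  tendsto_nhds_unique
    (((((hy 0).sub (hy 1)).mul ((hy 2).sub (hy 3))).mul
      (((hx 0).sub (hx 2)).mul ((hx 1).sub (hx 3)))).congr' h)
    ((((hy 0).sub (hy 2)).mul ((hy 1).sub (hy 3))).mul
      (((hx 0).sub (hx 1)).mul ((hx 2).sub (hx 3))))

end THK

open THK in
theorem stTHK (hP : St_PACK) : St_THK := by
  intro U Q W i c hn h R Λ hU hc hlu low hi hL cov ht hcre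
  refine ⟨1 + 4 * R ^ 2 + (27 * R) ^ 2, zc '' LV U W, (cnt hP low).image _, fun ξ hξ r₀ h0 => ?_⟩
  obtain ⟨r, rp, rl, v, ⟨a, ha⟩, b, b1⟩ := pick low hi hL cov hξ h0
  obtain ⟨w, hw⟩ : ∃ w, w = fr ξ r v := ⟨_, rfl⟩
  rw [← hw] at b b1
  have w0 := (norm_le_pi_norm w 0).trans b
  have w1 := (norm_le_pi_norm w 1).trans b
  have n0 := norm_nonneg (w 0)
  have n1 := norm_nonneg (w 1)
  have m : ‖w 0 * w 1‖ ≤ 4 * R ^ 2 := by rw [norm_mul]; nlinarith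
  have rc : (r : ℂ) ≠ 0 := by exact_mod_cast rp.ne'
  have v1 : v 1 = w 1 / r := by rw [hw]; simp [fr]; field_simp
  have v0 : v 0 = r * w 0 + ξ * (w 1 / r) := by rw [hw]; simp [fr]; field_simp; ring
  refine ⟨r ^ 2, by positivity, rl, 1 - w 0 * w 1, w 0 ^ 2, -w 1 ^ 2, 1 + w 0 * w 1, by ring,
    ?_, ?_, ?_, ?_, ?_, fun x hx => ?_⟩
  · refine (norm_sub_le _ _).trans ?_
    rw [norm_one]; nlinarith [sq_nonneg (27 * R)]
  · rw [norm_pow]; nlinarith [sq_nonneg (27 * R)]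
  · rw [norm_neg, norm_pow]; nlinarith [sq_nonneg (27 * R)]
  · refine (norm_add_le _ _).trans ?_
    rw [norm_one]; nlinarith [sq_nonneg (27 * R)]
  · rw [norm_neg, norm_pow]
    have : 1 ≤ (27 * R * ‖w 1‖) ^ 2 := one_le_pow₀ b1
    nlinarith [sq_nonneg (R * ‖w 1‖), sq_nonneg ‖w 1‖]
  · choose q q1 q2 using fun k : Fin 4 => dens hU low hi hL cov (ξ + ((r ^ 2 : ℝ) : ℂ) * x k)
    have ed : ∀ k, 1 + (v 0 - v 1 * (ξ + ((r ^ 2 : ℝ) : ℂ) * x k)) * v 1 =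
        -w 1 ^ 2 * x k + (1 + w 0 * w 1) := fun k => by
      rw [v0, v1]; push_cast; field_simp; ring
    have im := fun k => image low hi hL ht ha (q1 k) (q2 k) (by rw [ed]; exact hx k)
    have en : ∀ k, (ξ + ((r ^ 2 : ℝ) : ℂ) * x k +
        (v 0 - v 1 * (ξ + ((r ^ 2 : ℝ) : ℂ) * x k)) * v 0) /
        (1 + (v 0 - v 1 * (ξ + ((r ^ 2 : ℝ) : ℂ) * x k)) * v 1) = ξ + ((r ^ 2 : ℝ) : ℂ) *
          (((1 - w 0 * w 1) * x k + w 0 ^ 2) / (-w 1 ^ 2 * x k + (1 + w 0 * w 1))) := fun k => by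
      rw [ed, div_eq_iff (hx k), add_mul, mul_assoc, div_mul_cancel₀ _ (hx k), v0, v1]
      push_cast; field_simp; ring
    refine cre_lim (U := U) (x := fun n k => hn n (zc (W n (q k n))))
      (y := fun n k => hn n (zc (W n (c (a n) (q k n)))))
      (fun k => hlu.tendsto_comp hc.continuousAt (q2 k))
      (fun k => hlu.tendsto_comp hc.continuousAt (en k ▸ (im k).2)) ?_
    filter_upwards [eventually_all.2 q1, eventually_all.2 fun k => (im k).1] with n h1 h2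
    exact hcre n (a n) (fun k => q k n) fun k => ⟨h1 k, h2 k⟩

end Pool.Agent.Lib.THU.GE
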