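import Pool.Agent.Lib.THU.GE.Defs
import Pool.Agent.Lib.THU.NB.LIM
import Pool.Agent.Lib.THU.NB.GENB
import Pool.Agent.Lib.THU.FA.Cusp

/-!
Bounded lambda lengths at all levels.
-/

set_option autoImplicit false

namespace Pool.Agent.Lib.THU.GE

open Matrix OnePoint
open Pool.Agent.Lib.THU28 (V2 om)
open Pool.Agent.Lib.THU.FA
open Pool.Agent.Lib.THU.NB (Cusp Dis crl)

namespace Ub

/-- finitely many orbits of pairs with bounded determinant -/
lemma pairs {F : Type} [Group F] {σ : F →* GZ} (h : Lat σ) (M : ℤ) : ∃ T : Set (P × P), T.Finite ∧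
    ∀ a b, a ≠ b → |D a b| ≤ M → ∃ x, ∃ e ∈ T, a = σ x • e.1 ∧ b = σ x • e.2 := by
  obtain ⟨S, hS⟩ := h.fin
  choose y n n0 hy using h.exists_par
  refine ⟨⋃ B ∈ S, (fun w => (B • (∞ : P), B • w)) ''
    {w | |D ∞ w| ≤ n B * M ∧ |D p0 w| ≤ n B * M}, S.finite_toSet.biUnion fun B _ =>
      (finite_near (infty_ne_coe _) _).image _, fun a b hab hM => ?_⟩
  obtain ⟨A, rfl⟩ := exists_inf a
  obtain ⟨b, rfl⟩ := MulAction.surjective A b
  obtain ⟨x, B, hB, rfl⟩ := hS A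
  rw [abs_D_smul] at hM
  cases b using OnePoint.rec with
  | infty => exact (hab rfl).elim
  | coe q =>
    have hn : (0 : ℚ) < n B := by exact_mod_cast n0 B
    obtain ⟨i, hi⟩ : ∃ i : ℤ, i = ⌊q / n B⌋ := ⟨_, rfl⟩
    obtain ⟨r, hr⟩ : ∃ r : ℚ, r = q - i * n B := ⟨_, rfl⟩
    have r0 : 0 ≤ r := by rw [hr, sub_nonneg, ← le_div_iff₀ hn, hi]; exact Int.floor_le _
    have r1 : r ≤ n B := by
      have := (div_lt_iff₀ hn).1 (Int.lt_floor_add_one (q / n B))
      rw [← hi] at this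
      linarith
    have e : Tn (i * n B) • (r : P) = q := by rw [Tn_coe, hr]; simp
    have e' : σ (x * y B ^ i) * B = σ x * B * Tn (i * n B) := by
      rw [map_mul, map_zpow, hy, conj_zpow, Tn_zpow]; group
    rw [← e, ← Tn_inf (i * n B), abs_D_smul] at hM
    have h1 : (r.den : ℤ) ≤ M := by simpa [D] using hM
    have h2 : r.num ≤ n B * r.den := by
      have := Rat.mul_den_eq_num r
      have h3 : (r.num : ℚ) ≤ n B * r.den := by rw [← this]; gcongr
      exact_mod_cast h3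
    have h3 := n0 B
    have h4 : 0 < (r.den : ℤ) := by exact_mod_cast r.den_pos
    refine ⟨x * y B ^ i, _, Set.mem_biUnion hB ⟨(r : P), ⟨hM.trans (by nlinarith), ?_⟩, rfl⟩,
      by rw [← mul_smul, e', mul_smul _ (Tn _), Tn_inf],
      by rw [← mul_smul, e', mul_smul _ (Tn _), e]⟩
    simp only [D, nu_coe, de_coe, Rat.num_zero, Rat.den_zero, zero_mul, Nat.cast_one, mul_one,
      zero_sub, abs_neg, abs_of_nonneg (Rat.num_nonneg.2 r0)]
    nlinarith

lemma norm_swap (x y : V2) : ‖om x y‖ = ‖om y x‖ := by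
  rw [← norm_neg]
  congr 1
  simp only [om]
  ring

lemma one (hW : St_WCR) {G : Type} [Group G] [MulAction G P] {C : Cusp G P} {V : ℕ → P → V2}
    (hV : ∀ n, NV C (V n)) (hB : NBb C V) (a b : P) : ∃ L : ℝ, ∀ (n : ℕ) (k : ℤ), |k| ≤ n →
      ‖om (V n (C.t ^ k • a)) (V n (C.t ^ k • b))‖ ≤ L := by
  by_cases hab : a = b
  · exact ⟨0, fun n k _ => by simp [hab, om, mul_comm]⟩
  obtain ⟨j, j1, hj⟩ : ∃ j : ℤ, 1 ≤ j ∧ C.c b ^ j • a ≠ C.c a ^ (1 : ℤ) • b := by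
    by_contra! t
    have := (t 1 le_rfl).trans (t (1 + 1) (by norm_num)).symm
    rw [_root_.zpow_add, mul_smul, smul_left_cancel_iff] at this
    exact C.c_pow_ne (Ne.symm hab) one_ne_zero this
  have fx : ∀ (a : P) (j : ℤ), C.c a ^ j • a = a := fun a j =>
    (C.stab a _ (C.d.ker.zpow_mem (C.c_mem a) j)).2 (Subgroup.zpow_mem_zpowers _ _)
  obtain ⟨M, hM⟩ := hB a (C.c b ^ j • a) (C.c a ^ (1 : ℤ) • b) b
    ⟨C.c_pow_ne (Ne.symm hab) (by omega),
      fun t => hab (MulAction.injective (C.c a ^ (1 : ℤ)) ((fx a 1).trans t)), hab, hj,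
      fun t => hab (MulAction.injective (C.c b ^ j) (t.trans (fx b j).symm)),
      (C.c_pow_ne hab one_ne_zero).symm⟩
  refine ⟨Real.exp (M / 2), fun n k hk => ?_⟩
  obtain ⟨w1, -, -, w4⟩ := hW G P C (V n) (hV n)
  obtain ⟨a1, a2⟩ := w4 (C.t ^ k) a b j
  obtain ⟨a3, a4⟩ := w4 (C.t ^ k) b a 1
  have l0 := lt_of_lt_of_le (by norm_num : (0 : ℝ) < 1 / 9) (w1 _ _ (NB.smul_ne' (C.t ^ k) hab))
  have h := (le_abs_self _).trans (hM n k hk)
  have jr : (1 : ℝ) ≤ |(j : ℝ)| := (by exact_mod_cast j1 : (1 : ℝ) ≤ j).trans (le_abs_self _)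
  change Real.log ‖om _ _‖ + Real.log ‖om _ _‖ - Real.log ‖om _ _‖ - Real.log ‖om _ _‖ ≤ M at h
  rw [a1, norm_swap (V n (_ • _ • b)), a3, a4, norm_swap (V n (_ • _ • a)), a2,
    norm_swap (V n (_ • b)), Int.cast_one, abs_one, one_mul,
    Real.log_mul (by positivity) (by positivity), Real.log_pow] at h
  rw [← Real.log_le_iff_le_exp l0]
  push_cast at h
  linarith [Real.log_nonneg jr]

end Ub

theorem stUB (hW : St_WCR) : St_UB := by
  intro G _ _ C φ V hV hB M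
  obtain ⟨T, hT, h⟩ := Ub.pairs φ.lat M
  choose L hL using Ub.one hW hV hB
  obtain ⟨K, hK⟩ := (hT.image fun e => L e.1 e.2).bddAbove
  refine ⟨max K 0, fun n g a b hg hM => ?_⟩
  by_cases hab : a = b
  · simp [hab, om, mul_comm]
  obtain ⟨x, e, he, rfl, rfl⟩ := h a b hab hM
  obtain ⟨f, hf, hfg⟩ := C.decomp g
  obtain ⟨-, w2, -⟩ := hW G P C (V n) (hV n)
  have := w2 f hf 1 (C.t ^ dgr C g • e.1) (C.t ^ dgr C g • e.2)
  simp only [one_smul] at this
  rw [← mul_smul, ← mul_smul] at this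
  rw [← φ.act, ← φ.act, w2 x x.2, hfg]
  exact le_max_of_le_left (this.le.trans ((hL _ _ n _ hg).trans (hK ⟨e, he, rfl⟩)))

end Pool.Agent.Lib.THU.GE
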