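import Pool.Agent.Lib.THU.GE.Defs
import Pool.Agent.Lib.THU.NB.GENB

/-!
Blocks WCR and FIX2: lambda lengths at all levels, and trivial stabilisers of pairs of cusps.
-/

set_option autoImplicit false

namespace Pool.Agent.Lib.THU.GE

open Matrix
open Pool.Agent.Lib.THU28
open Pool.Agent.Lib.THU.NB (Cusp)

namespace WCR

lemma tr_om (T : M2) (x y : V2) : T.trace * om x y = om (T *ᵥ x) y + om x (T *ᵥ y) := by
  simp [om, mulVec, dotProduct, trace_fin_two]; ring

variable {F : Type} [Group F] {Q : Type} [MulAction F Q] {c : Q → F} {V : Q → V2}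

/-- an element that fixes a cusp has trace `2` or `-2` -/
lemma trace_sq (h : Nrm c V) {T : M2} {x : F} (hT : Rp V T x) {q : Q} (hq : x • q = q) :
    T.trace ^ 2 = 4 := by
  obtain ⟨k, hk⟩ := (h.stab q x).1 hq
  obtain ⟨a, b, hab⟩ := h.two
  have hS := (h.zpow q (-k)).mul hT
  rw [← hk, ← _root_.zpow_add, neg_add_cancel, zpow_zero] at hS
  have n1 : a ≠ c a • b := fun e => hab (MulAction.injective (c a) ((h.fix a).trans e))
  have n2 : b ≠ c a • b := fun e => hab (h.fix1 _ (h.c_ne a) a b (h.fix a) e.symm)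
  choose s hs using hS.2
  simp only [one_smul] at hs
  have pr : ∀ p p', p ≠ p' → s p * s p' = 1 := fun p p' hp => by
    have := om_mulVec (tv (V q) ((-k : ℤ) : ℂ) * T) (V p) (V p')
    rw [hs, hs, hS.1, om_smul_left, om_smul_right, ← mul_assoc] at this
    exact mul_right_cancel₀ (h.inj p p' hp) this
  have e1 := pr a b hab
  have e : s b = s a := by
    linear_combination s a * pr b _ n2 - s b * pr a _ n1
  have tp : ∀ p, T *ᵥ V p = s p • tv (V q) k *ᵥ V p := fun p => by
    rw [← mulVec_smul, ← hs, mulVec_mulVec, ← mul_assoc, tv_mul]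
    simp [tv_zero]
  have t1 := tr_om T (V a) (V b)
  have t2 := tr_om (tv (V q) k) (V a) (V b)
  rw [tp, tp, om_smul_left, om_smul_right, e, ← mul_add, ← t2, tv_trace, ← mul_assoc] at t1
  rw [mul_right_cancel₀ (h.inj a b hab) t1]
  rw [e] at e1
  linear_combination 4 * e1

end WCR

theorem stWCR : St_WCR := by
  intro G _ Q _ C V h
  have := C.free
  have three : ∀ (g : G) (b : Q), ∃ ε : ℤ, (ε = 1 ∨ ε = -1) ∧ ∀ (j : ℤ) (a : Q), ∃ s : ℂ,
      ‖s‖ = 1 ∧ tv (V (g • b)) (ε * j) *ᵥ V (g • a) = s • V (g • C.c b ^ j • a) := by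
    intro g b
    obtain ⟨ε, hε, e⟩ : ∃ ε : ℤ, (ε = 1 ∨ ε = -1) ∧ g * C.c b * g⁻¹ = C.c (g • b) ^ ε := by
      rcases C.c_conj g b with e | e
      exacts [⟨1, Or.inl rfl, by simpa using e⟩, ⟨-1, Or.inr rfl, by simpa using e⟩]
    refine ⟨ε, hε, fun j a => ?_⟩
    obtain ⟨s, hs, e1⟩ := h.unit_p (h.zpow (g • b) (ε * j)) (g • a)
    refine ⟨s, hs, ?_⟩
    have e2 : C.c (g • b) ^ (ε * j) • g • a = g • C.c b ^ j • a := by
      rw [_root_.zpow_mul, ← e, _root_.conj_zpow, mul_smul, inv_smul_smul, mul_smul]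
    rw [← e2]
    simpa [Subgroup.smul_def] using e1
  refine ⟨fun a b hab => ?_, fun f hf g a b => ?_, three, fun g a b j => ?_⟩
  · have := h.low hab
    by_contra hl
    nlinarith [norm_nonneg (om (V a) (V b))]
  · have := h.inv ⟨_, C.conj_mem g hf⟩ (g • a) (g • b)
    simpa [Subgroup.smul_def, mul_smul] using this
  · obtain ⟨ε, hε, e⟩ := three g b
    obtain ⟨s, hs, e⟩ := e j a
    have e1 := congrArg (fun x => ‖om (V (g • a)) x‖) e
    have e2 := congrArg (fun x => ‖om (V (g • b)) x‖) e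
    have n : ‖(ε : ℂ)‖ = 1 := by rcases hε with rfl | rfl <;> simp
    simp only [tv_mulVec, om_add_right, om_smul_right, om_self, zero_add, norm_mul, hs, one_mul,
      mul_zero, add_zero, n, norm_om_swap (V (g • a)) (V (g • b)), Complex.norm_intCast] at e1 e2
    exact ⟨by rw [← e1]; ring, e2.symm⟩

theorem stFIX2 : St_FIX2 := by
  intro G _ Q _ C V h g a b hab ha hb
  by_contra g1
  by_cases hg : g ∈ C.d.ker
  · exact hab (C.fix1 g hg g1 a b ha hb)
  have g2 : g * g ∉ C.d.ker := fun e => hg (by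
    rw [MonoidHom.mem_ker, map_mul] at e
    have := congrArg Multiplicative.toAdd e
    rw [toAdd_mul, toAdd_one] at this
    exact Multiplicative.toAdd.injective (by rw [toAdd_one]; omega))
  have cm : ∀ p, g • p = p → Commute (g * g) (C.c p) := fun p hp => by
    have e : g * g * C.c p * (g * g)⁻¹ = g * (g * C.c p * g⁻¹) * g⁻¹ := by group
    rw [commute_iff_eq, ← mul_inv_eq_iff_eq_mul, e]
    rcases C.c_conj g p with e | e <;> rw [hp] at e
    · rw [e, e]
    · rw [e, ← conj_inv, e, inv_inv]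
  have key : ∀ j : ℤ, (2 - j * om (V a) (V b) ^ 2) ^ 2 = 4 := fun j => by
    have hT := (h.par a).mul (h.zpow b j)
    obtain ⟨q, hq⟩ := C.per _ (C.d.ker.mul_mem (C.c_mem a) (C.d.ker.zpow_mem (C.c_mem b) j)) _ g2
      ((cm a ha).mul_right ((cm b hb).zpow_right j))
    have := WCR.trace_sq h hT (q := q) (by simpa [Subgroup.smul_def] using hq)
    rwa [trace_tv_mul, one_mul] at this
  have k1 := key 1
  have k2 := key (-1)
  apply pow_ne_zero 2 (h.inj a b hab)
  push_cast at k1 k2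
  linear_combination (k2 - k1) / 8

end Pool.Agent.Lib.THU.GE
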